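import Pool.Agent.Helper420.QI.W4
set_option autoImplicit false
set_option linter.unusedSectionVars false
set_option linter.unusedVariables false
open MeasureTheory Filter Topology Set
open scoped ENNReal NNReal InnerProductSpace

namespace Pool.Agent.H571Z.Iso

/-- abstract setting: `J` is a compact map from the Hilbert space `H` to `L^q`, and positive parts
can be taken in `H`. The measure is arbitrary. -/
structure Dq {α : Type*} [MeasurableSpace α] (μ : Measure α)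
    {H : Type*} [NormedAddCommGroup H] [InnerProductSpace ℝ H]
    {p : ℝ≥0∞} [Fact (1 ≤ p)] (J : H →L[ℝ] Lp ℝ p μ) (q : ℝ) : Prop where
  two_lt : 2 < q
  hp : p = ENNReal.ofReal q
  cut : ∀ u : H, ∃ w : H, (J w =ᵐ[μ] fun x => max (J u x) 0) ∧ ‖w‖ ^ 2 ≤ ⟪u, w⟫_ℝ
  comp : IsCompactOperator J

variable {α : Type*} [MeasurableSpace α] {μ : Measure α}
  {H : Type*} [NormedAddCommGroup H] [InnerProductSpace ℝ H] [CompleteSpace H]
  {p : ℝ≥0∞} [Fact (1 ≤ p)] {J : H →L[ℝ] Lp ℝ p μ} {q : ℝ}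

theorem memLpq (hD : Dq μ J q) (u : H) : MemLp (J u) (ENNReal.ofReal q) μ := by
  rw [← hD.hp]; exact Lp.memLp (J u)

theorem intq (hD : Dq μ J q) (u : H) : Integrable (fun x => |J u x| ^ q) μ := by
  have h := (memLpq hD u).integrable_norm_rpow (by
    have := hD.two_lt
    simp only [ne_eq, ENNReal.ofReal_eq_zero, not_le]; linarith) ENNReal.ofReal_ne_top
  rw [ENNReal.toReal_ofReal (by have := hD.two_lt; linarith)] at h
  simpa [Real.norm_eq_abs] using h

theorem aem (u : H) : AEStronglyMeasurable (fun x => J u x) μ := Lp.aestronglyMeasurable _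

theorem int1 (hD : Dq μ J q) (u φ : H) :
    Integrable (fun x => |J u x| ^ (q - 1) * J φ x) μ := by
  refine Integrable.mono ((intq hD u).add (intq hD φ)) ?_ ?_
  · exact ((((aem (J := J) u).norm.aemeasurable.pow_const (q - 1)).aestronglyMeasurable).mul (aem φ))
  · filter_upwards with x
    simp only [Pi.add_apply, Real.norm_eq_abs, abs_mul]
    rw [abs_of_nonneg (Real.rpow_nonneg (abs_nonneg _) _)]
    rw [abs_of_nonneg (add_nonneg (Real.rpow_nonneg (abs_nonneg _) _)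
      (Real.rpow_nonneg (abs_nonneg _) _))]
    exact Pool.Agent.Helper420.QI.W4.young_simple hD.two_lt (abs_nonneg _) (abs_nonneg _)

theorem int1' (hD : Dq μ J q) (u φ : H) :
    Integrable (fun x => |J u x| ^ (q - 1) * |J φ x|) μ := by
  refine (int1 hD u φ).abs.congr (Eventually.of_forall fun x => ?_)
  simp only
  rw [abs_mul, abs_of_nonneg (Real.rpow_nonneg (abs_nonneg _) _)]

theorem norm_pow (hD : Dq μ J q) (u : H) : ‖J u‖ ^ q = ∫ x, |J u x| ^ q ∂μ := by
  have hq : 0 < q := by linarith [hD.two_lt]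
  have h := (memLpq hD u).eLpNorm_eq_integral_rpow_norm (by simpa using hq) ENNReal.ofReal_ne_top
  rw [ENNReal.toReal_ofReal hq.le] at h
  have hnn : 0 ≤ ∫ x, ‖J u x‖ ^ q ∂μ := integral_nonneg fun x => by positivity
  have h2 : ‖J u‖ = (eLpNorm (J u) (ENNReal.ofReal q) μ).toReal := by
    rw [Lp.norm_def, ← hD.hp]
  rw [h2, h, ENNReal.toReal_ofReal (by positivity), ← Real.rpow_mul hnn, inv_mul_cancel₀ hq.ne',
    Real.rpow_one]
  rfl

/-- Hoelder -/
theorem hoelder (hD : Dq μ J q) (u v : H) :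
    ∫ x, |J u x| ^ (q - 1) * |J v x| ∂μ ≤ ‖J u‖ ^ (q - 1) * ‖J v‖ := by
  have hq := hD.two_lt
  have hq0 : 0 < q := by linarith
  have hq1 : 0 < q - 1 := by linarith
  have hpq : (q / (q - 1)).HolderConjugate q := by
    rw [Real.holderConjugate_comm]
    exact Real.HolderConjugate.conjExponent (by linarith)
  have hf1 : MemLp (fun x => |J u x| ^ (q - 1)) (ENNReal.ofReal (q / (q - 1))) μ := by
    have := (memLpq hD u).norm_rpow_div (ENNReal.ofReal (q - 1))
    rw [← ENNReal.ofReal_div_of_pos hq1, ENNReal.toReal_ofReal hq1.le] at this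
    exact this
  have hf2 : MemLp (fun x => |J v x|) (ENNReal.ofReal q) μ := (memLpq hD v).abs
  have key := integral_mul_le_Lp_mul_Lq_of_nonneg hpq
    (Eventually.of_forall fun x => Real.rpow_nonneg (abs_nonneg (J u x)) (q - 1))
    (Eventually.of_forall fun x => abs_nonneg (J v x)) hf1 hf2
  have e2 : ∀ x, (|J u x| ^ (q - 1)) ^ (q / (q - 1)) = |J u x| ^ q := by
    intro x
    rw [← Real.rpow_mul (abs_nonneg _)]
    congr 1
    field_simp
  simp only [e2] at key
  rw [← norm_pow hD, ← norm_pow hD, ← Real.rpow_mul (norm_nonneg _),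
    ← Real.rpow_mul (norm_nonneg _)] at key
  have e3 : q * (1 / (q / (q - 1))) = q - 1 := by field_simp
  have e4 : q * (1 / q) = 1 := by field_simp
  rwa [e3, e4, Real.rpow_one] at key

/-- comparison principle -/
theorem le_zero_of_cut (hD : Dq μ J q) (z : H)
    (h : ∀ φ : H, 0 ≤ᵐ[μ] J φ → (J φ =ᵐ[μ] fun x => max (J z x) 0) → ⟪z, φ⟫_ℝ ≤ 0) :
    ∀ᵐ x ∂μ, J z x ≤ 0 := by
  obtain ⟨w, hw, hn⟩ := hD.cut z
  have h1 : ⟪z, w⟫_ℝ ≤ 0 := h w (by
    filter_upwards [hw] with x hx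
    simp only [Pi.zero_apply]
    rw [hx]; exact le_max_right _ _) hw
  have h2 : w = 0 := by
    have : ‖w‖ ^ 2 ≤ 0 := hn.trans h1
    have h3 : ‖w‖ = 0 := by nlinarith [norm_nonneg w]
    exact norm_eq_zero.1 h3
  have h4 : J w =ᵐ[μ] 0 := by
    rw [h2, map_zero]; exact Lp.coeFn_zero _ _ _
  filter_upwards [hw, h4] with x hx hx4
  have : max (J z x) 0 = 0 := by rw [← hx, hx4]; rfl
  calc J z x ≤ max (J z x) 0 := le_max_left _ _
    _ = 0 := this

theorem jsub (u v : H) : J (u - v) =ᵐ[μ] fun x => J u x - J v x := by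
  rw [map_sub]; exact Lp.coeFn_sub _ _

theorem jadd (u v : H) : J (u + v) =ᵐ[μ] fun x => J u x + J v x := by
  rw [map_add]; exact Lp.coeFn_add _ _

theorem jneg (u : H) : J (-u) =ᵐ[μ] fun x => - J u x := by
  rw [map_neg]; exact Lp.coeFn_neg _

theorem jsmul (c : ℝ) (u : H) : J (c • u) =ᵐ[μ] fun x => c * J u x := by
  rw [map_smul]; exact Lp.coeFn_smul _ _

theorem habs (hD : Dq μ J q) (u : H) :
    ∃ v : H, (J v =ᵐ[μ] fun x => |J u x|) ∧ ‖v‖ ≤ ‖u‖ := by
  obtain ⟨w, hw, hn⟩ := hD.cut u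
  refine ⟨(2 : ℝ) • w - u, ?_, ?_⟩
  · filter_upwards [jsub (J := J) ((2 : ℝ) • w) u, jsmul (J := J) 2 w, hw] with x h1 h2 h3
    rw [h1, h2, h3]
    rcases le_total 0 (J u x) with h | h
    · rw [max_eq_left h, abs_of_nonneg h]; ring
    · rw [max_eq_right h, abs_of_nonpos h]; ring
  · have h1 : ‖(2 : ℝ) • w - u‖ ^ 2 ≤ ‖u‖ ^ 2 := by
      rw [norm_sub_sq_real, inner_smul_left, norm_smul, mul_pow, Real.norm_eq_abs, sq_abs,
        real_inner_comm]
      simp only [conj_trivial]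
      nlinarith
    exact le_of_sq_le_sq h1 (norm_nonneg _) 

theorem int_dom (hD : Dq μ J q) (u : H) {F : α → ℝ} (hF : AEStronglyMeasurable F μ) {c : ℝ}
    (hb : ∀ᵐ x ∂μ, |F x| ≤ c * |J u x| ^ (q - 1)) (φ : H) :
    Integrable (fun x => F x * J φ x) μ := by
  refine ((int1' hD u φ).const_mul c).mono' (hF.mul (aem φ)) ?_
  filter_upwards [hb] with x hx
  rw [Real.norm_eq_abs, abs_mul, ← mul_assoc]
  exact mul_le_mul_of_nonneg_right hx (abs_nonneg _)

theorem int_bound (hD : Dq μ J q) (u : H) {F : α → ℝ} (hF : AEStronglyMeasurable F μ) {c : ℝ}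
    (hc : 0 ≤ c) (hb : ∀ᵐ x ∂μ, |F x| ≤ c * |J u x| ^ (q - 1)) (φ : H) :
    |∫ x, F x * J φ x ∂μ| ≤ c * ‖J u‖ ^ (q - 1) * ‖J‖ * ‖φ‖ := by
  calc |∫ x, F x * J φ x ∂μ| ≤ ∫ x, |F x * J φ x| ∂μ := abs_integral_le_integral_abs
    _ ≤ ∫ x, c * (|J u x| ^ (q - 1) * |J φ x|) ∂μ := by
        refine integral_mono_ae (int_dom hD u hF hb φ).abs ((int1' hD u φ).const_mul c) ?_
        filter_upwards [hb] with x hx
        rw [abs_mul, ← mul_assoc]
        exact mul_le_mul_of_nonneg_right hx (abs_nonneg _)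
    _ = c * ∫ x, |J u x| ^ (q - 1) * |J φ x| ∂μ := integral_const_mul _ _
    _ ≤ c * (‖J u‖ ^ (q - 1) * ‖J φ‖) := mul_le_mul_of_nonneg_left (hoelder hD u φ) hc
    _ ≤ c * (‖J u‖ ^ (q - 1) * (‖J‖ * ‖φ‖)) := by
        gcongr
        exact J.le_opNorm φ
    _ = _ := by ring

/-- Riesz representation -/
theorem riesz (hD : Dq μ J q) (u : H) {F : α → ℝ} (hF : AEStronglyMeasurable F μ) {c : ℝ}
    (hc : 0 ≤ c) (hb : ∀ᵐ x ∂μ, |F x| ≤ c * |J u x| ^ (q - 1)) :
    ∃ g : H, ∀ φ : H, ⟪g, φ⟫_ℝ = ∫ x, F x * J φ x ∂μ := by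
  let L : H →ₗ[ℝ] ℝ :=
    { toFun := fun φ => ∫ x, F x * J φ x ∂μ
      map_add' := by
        intro a b
        rw [← integral_add (int_dom hD u hF hb a) (int_dom hD u hF hb b)]
        refine integral_congr_ae ?_
        filter_upwards [jadd (J := J) a b] with x hx
        rw [hx]; ring
      map_smul' := by
        intro s a
        simp only [RingHom.id_apply, smul_eq_mul]
        rw [← integral_const_mul]
        refine integral_congr_ae ?_
        filter_upwards [jsmul (J := J) s a] with x hx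
        rw [hx]; ring }
  have hL : ∀ φ, ‖L φ‖ ≤ (c * ‖J u‖ ^ (q - 1) * ‖J‖) * ‖φ‖ := fun φ => int_bound hD u hF hc hb φ
  refine ⟨(InnerProductSpace.toDual ℝ H).symm (L.mkContinuous _ hL), fun φ => ?_⟩
  rw [InnerProductSpace.toDual_symm_apply]
  rfl

end Pool.Agent.H571Z.Iso
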