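import Pool.Agent.H571Z.Iso.A1
set_option autoImplicit false
set_option linter.unusedSectionVars false
set_option linter.unusedVariables false
open MeasureTheory Filter Topology Set
open scoped ENNReal NNReal InnerProductSpace

namespace Pool.Agent.H571Z.Iso

variable {α : Type*} [MeasurableSpace α] {μ : Measure α}
  {H : Type*} [NormedAddCommGroup H] [InnerProductSpace ℝ H] [CompleteSpace H]
  {p : ℝ≥0∞} [Fact (1 ≤ p)] {J : H →L[ℝ] Lp ℝ p μ} {q : ℝ}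

theorem lev_pt {q b z k h : ℝ} (hq : 2 < q) (hb : 0 ≤ b) (hk : 0 ≤ k) (hh : k < h) :
    (b ^ (q - 1) + |z| ^ (q - 1)) * max (z - h * b) 0 ≤
      (1 + 2 ^ (q - 1) * h ^ (q - 1)) / (h - k) ^ (q - 1) *
        (|max (z - k * b) 0| ^ (q - 1) * |max (z - h * b) 0|) +
      2 ^ (q - 1) * |max (z - h * b) 0| ^ q := by
  have hhk : 0 < h - k := by linarith
  have hh0 : 0 ≤ h := by linarith
  rcases le_or_gt (z - h * b) 0 with h0 | h0
  · rw [max_eq_right h0, abs_zero, Real.zero_rpow (by linarith : q ≠ 0)]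
    simp
  · set g := z - h * b with hg
    have hkb : k * b ≤ h * b := mul_le_mul_of_nonneg_right hh.le hb
    have h1 : 0 < z - k * b := by linarith
    rw [max_eq_left h0.le, max_eq_left h1.le, abs_of_pos h0, abs_of_pos h1]
    have hz : |z| = g + h * b := by
      rw [abs_of_nonneg (by nlinarith [mul_nonneg hh0 hb])]; rw [hg]; ring
    have e2 : (g + h * b) ^ (q - 1) ≤ 2 ^ (q - 1) * (g ^ (q - 1) + (h * b) ^ (q - 1)) :=
      Pool.Agent.Helper420.QI.W1.w1_add_rpow h0.le (mul_nonneg hh0 hb) (by linarith)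
    rw [Real.mul_rpow hh0 hb] at e2
    have e3 : g ^ q = g ^ (q - 1) * g := by
      rw [← Real.rpow_add_one h0.ne']; congr 1; ring
    have e4 : b ^ (q - 1) ≤ (z - k * b) ^ (q - 1) / (h - k) ^ (q - 1) := by
      rw [← Real.div_rpow h1.le hhk.le]
      refine Real.rpow_le_rpow hb ?_ (by linarith)
      rw [le_div_iff₀ hhk]
      nlinarith
    have e5 : 0 ≤ 1 + 2 ^ (q - 1) * h ^ (q - 1) := by positivity
    rw [hz, e3]
    calc (b ^ (q - 1) + (g + h * b) ^ (q - 1)) * g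
        ≤ (b ^ (q - 1) + 2 ^ (q - 1) * (g ^ (q - 1) + h ^ (q - 1) * b ^ (q - 1))) * g := by
          gcongr
      _ = (1 + 2 ^ (q - 1) * h ^ (q - 1)) * b ^ (q - 1) * g + 2 ^ (q - 1) * (g ^ (q - 1) * g) := by
          ring
      _ ≤ (1 + 2 ^ (q - 1) * h ^ (q - 1)) * ((z - k * b) ^ (q - 1) / (h - k) ^ (q - 1)) * g +
          2 ^ (q - 1) * (g ^ (q - 1) * g) := by gcongr
      _ = _ := by ring

theorem level (hD : Dq μ J q) {v0 z : H} (hv : 0 ≤ᵐ[μ] J v0)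
    (hsup : ∀ φ : H, 0 ≤ᵐ[μ] J φ → 0 ≤ ⟪v0, φ⟫_ℝ) {M η : ℝ} (hM : 0 ≤ M)
    (hz : ∀ φ : H, 0 ≤ᵐ[μ] J φ →
      ⟪z, φ⟫_ℝ ≤ M * ∫ x, (|J v0 x| ^ (q - 1) + |J z x| ^ (q - 1)) * J φ x ∂μ)
    (hη : ‖J z‖ ≤ η) (hsm : ‖J‖ ^ 2 * M * 2 ^ (q - 1) * η ^ (q - 2) ≤ 1 / 2)
    {k h : ℝ} (hk : 0 ≤ k) (hh : k < h) {wk wh : H}
    (hwk : J wk =ᵐ[μ] fun x => max (J z x - k * J v0 x) 0)
    (hwh : J wh =ᵐ[μ] fun x => max (J z x - h * J v0 x) 0)
    (hn : ‖wh‖ ^ 2 ≤ ⟪z - h • v0, wh⟫_ℝ) :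
    ‖J wh‖ ≤ 2 * ‖J‖ ^ 2 * M * ((1 + 2 ^ (q - 1) * h ^ (q - 1)) / (h - k) ^ (q - 1)) *
      ‖J wk‖ ^ (q - 1) := by
  have hq := hD.two_lt
  have hhk : 0 < h - k := by linarith
  have hh0 : 0 ≤ h := by linarith
  set c : ℝ := (1 + 2 ^ (q - 1) * h ^ (q - 1)) / (h - k) ^ (q - 1) with hc
  have hc0 : 0 ≤ c := by positivity
  set n : ℝ := ‖J wh‖ with hn'
  have hn0 : 0 ≤ n := norm_nonneg _
  have hpos : 0 ≤ᵐ[μ] J wh := by
    filter_upwards [hwh] with x hx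
    rw [hx]; exact le_max_right _ _
  have h1 : ‖wh‖ ^ 2 ≤ ⟪z, wh⟫_ℝ := by
    rw [inner_sub_left, inner_smul_left] at hn
    simp only [conj_trivial] at hn
    have := mul_nonneg hh0 (hsup wh hpos)
    linarith
  have h2 : ∫ x, (|J v0 x| ^ (q - 1) + |J z x| ^ (q - 1)) * J wh x ∂μ ≤
      c * (‖J wk‖ ^ (q - 1) * n) + 2 ^ (q - 1) * n ^ q := by
    have i1 : Integrable (fun x => (|J v0 x| ^ (q - 1) + |J z x| ^ (q - 1)) * J wh x) μ := by
      refine ((int1 hD v0 wh).add (int1 hD z wh)).congr (Eventually.of_forall fun x => ?_)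
      simp only [Pi.add_apply]; ring
    calc ∫ x, (|J v0 x| ^ (q - 1) + |J z x| ^ (q - 1)) * J wh x ∂μ
        ≤ ∫ x, (c * (|J wk x| ^ (q - 1) * |J wh x|) + 2 ^ (q - 1) * |J wh x| ^ q) ∂μ := by
          refine integral_mono_ae i1 (((int1' hD wk wh).const_mul c).add
            ((intq hD wh).const_mul _)) ?_
          filter_upwards [hwk, hwh, hv] with x e1 e2 e3
          have e3' : 0 ≤ J v0 x := e3
          rw [e1, e2, abs_of_nonneg e3']
          exact lev_pt hq e3' hk hh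
      _ = c * ∫ x, |J wk x| ^ (q - 1) * |J wh x| ∂μ + 2 ^ (q - 1) * ∫ x, |J wh x| ^ q ∂μ := by
          rw [integral_add ((int1' hD wk wh).const_mul c) ((intq hD wh).const_mul _),
            integral_const_mul, integral_const_mul]
      _ ≤ _ := by
          rw [← norm_pow hD]
          have := hoelder hD wk wh
          gcongr
  have hnη : n ≤ η := by
    refine le_trans ?_ hη
    apply Lp.norm_le_norm_of_ae_le
    filter_upwards [hwh, hv] with x e2 e3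
    have e3' : 0 ≤ J v0 x := e3
    rw [e2, Real.norm_eq_abs, Real.norm_eq_abs, abs_of_nonneg (le_max_right _ _)]
    have := le_abs_self (J z x)
    have h5 := mul_nonneg hh0 e3'
    exact max_le (by linarith) (abs_nonneg _)
  have h3 : n ^ q ≤ η ^ (q - 2) * n ^ 2 := by
    rcases hn0.eq_or_lt with h0 | h0
    · rw [← h0, Real.zero_rpow (by linarith)]
      have : 0 ≤ η := hn0.trans hnη
      positivity
    · have e : n ^ q = n ^ (q - 2) * n ^ (2 : ℝ) := by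
        rw [← Real.rpow_add h0]; congr 1; ring
      rw [e, Real.rpow_two]
      exact mul_le_mul_of_nonneg_right (Real.rpow_le_rpow hn0 hnη (by linarith)) (by positivity)
  have h4 : n ^ 2 ≤ ‖J‖ ^ 2 * ‖wh‖ ^ 2 := by
    rw [← mul_pow]
    exact pow_le_pow_left₀ hn0 (J.le_opNorm wh) 2
  have h5 : ‖wh‖ ^ 2 ≤ M * (c * (‖J wk‖ ^ (q - 1) * n) + 2 ^ (q - 1) * (η ^ (q - 2) * n ^ 2)) := by
    refine h1.trans ((hz wh hpos).trans (mul_le_mul_of_nonneg_left (h2.trans ?_) hM))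
    gcongr
  set P : ℝ := ‖J wk‖ ^ (q - 1) with hP
  have hP0 : 0 ≤ P := by positivity
  have h6 : n ^ 2 ≤ ‖J‖ ^ 2 * M * c * P * n + 1 / 2 * n ^ 2 := by
    calc n ^ 2 ≤ ‖J‖ ^ 2 * (M * (c * (P * n) + 2 ^ (q - 1) * (η ^ (q - 2) * n ^ 2))) :=
          h4.trans (mul_le_mul_of_nonneg_left h5 (by positivity))
      _ = ‖J‖ ^ 2 * M * c * P * n + (‖J‖ ^ 2 * M * 2 ^ (q - 1) * η ^ (q - 2)) * n ^ 2 := by ring
      _ ≤ _ := by gcongr
  rcases hn0.eq_or_lt with h0 | h0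
  · rw [← h0]; positivity
  · have : n * n ≤ (2 * ‖J‖ ^ 2 * M * c * P) * n := by nlinarith
    exact le_of_mul_le_mul_right this h0

theorem small_eta {K s c : ℝ} (hs : 0 < s) (hc : 0 < c) :
    ∀ᶠ η in 𝓝[>] (0 : ℝ), K * η ^ s ≤ c := by
  have h1 : ContinuousAt (fun η : ℝ => K * η ^ s) 0 :=
    continuousAt_const.mul (continuousAt_id.rpow_const (Or.inr hs.le))
  have h2 := h1.tendsto
  simp only [Real.zero_rpow hs.ne', mul_zero] at h2
  exact ((h2.mono_left nhdsWithin_le_nhds).eventually_lt_const hc).mono fun _ h => h.le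

/-- Stampacchia iteration relative to a supersolution -/
theorem stamp (hD : Dq μ J q) {v0 : H} (hv : 0 ≤ᵐ[μ] J v0)
    (hsup : ∀ φ : H, 0 ≤ᵐ[μ] J φ → 0 ≤ ⟪v0, φ⟫_ℝ) {M : ℝ} (hM : 0 ≤ M) {ε : ℝ} (hε : 0 < ε) :
    ∃ η > 0, ∀ z : H, (∀ φ : H, 0 ≤ᵐ[μ] J φ →
      ⟪z, φ⟫_ℝ ≤ M * ∫ x, (|J v0 x| ^ (q - 1) + |J z x| ^ (q - 1)) * J φ x ∂μ) →
      ‖J z‖ ≤ η → ∀ᵐ x ∂μ, J z x ≤ ε * J v0 x := by
  have hq := hD.two_lt
  set B : ℝ := 2 * ‖J‖ ^ 2 * M * (1 + 2 ^ (q - 1) * ε ^ (q - 1)) with hB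
  have hB0 : 0 ≤ B := by positivity
  set ρ : ℝ := 2 ^ (-((q - 1) / (q - 2))) with hρ
  have hρ0 : 0 < ρ := by positivity
  have hρ1 : ρ < 1 := by
    rw [hρ]
    refine Real.rpow_lt_one_of_one_lt_of_neg (by norm_num) ?_
    have : 0 < (q - 1) / (q - 2) := div_pos (by linarith) (by linarith)
    linarith
  have hρr : (2 : ℝ) ^ (q - 1) * ρ ^ (q - 1) = ρ := by
    rw [hρ, ← Real.rpow_mul (by norm_num), ← Real.rpow_add (by norm_num)]
    congr 1
    have : q - 2 ≠ 0 := by linarith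
    field_simp
    ring
  obtain ⟨η, ⟨h1, h2⟩, hη0⟩ := (((small_eta (K := ‖J‖ ^ 2 * M * 2 ^ (q - 1)) (s := q - 2)
    (c := 1 / 2) (by linarith) (by norm_num)).and (small_eta (K := B * (2 / ε) ^ (q - 1))
    (s := q - 2) (c := ρ) (by linarith) hρ0)).and self_mem_nhdsWithin).exists
  have hη0' : 0 < η := hη0
  refine ⟨η, hη0', fun z hz hη => ?_⟩
  have hex : ∀ k : ℝ, ∃ w : H, (J w =ᵐ[μ] fun x => max (J z x - k * J v0 x) 0) ∧
      ‖w‖ ^ 2 ≤ ⟪z - k • v0, w⟫_ℝ := by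
    intro k
    obtain ⟨w, hw, hn⟩ := hD.cut (z - k • v0)
    refine ⟨w, ?_, hn⟩
    filter_upwards [hw, jsub (J := J) z (k • v0), jsmul (J := J) k v0] with x e1 e2 e3
    rw [e1, e2, e3]
  choose w hw hn using hex
  set κ : ℕ → ℝ := fun j => ε * (1 - (1 / 2) ^ j) with hκ
  have hκ0 : ∀ j, 0 ≤ κ j := by
    intro j
    have : (1 / 2 : ℝ) ^ j ≤ 1 := pow_le_one₀ (by norm_num) (by norm_num)
    exact mul_nonneg hε.le (by linarith)
  have hκε : ∀ j, κ j ≤ ε := by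
    intro j
    have : 0 ≤ ε * (1 / 2 : ℝ) ^ j := by positivity
    simp only [hκ]
    nlinarith
  have hκd : ∀ j, κ (j + 1) - κ j = ε * (1 / 2) ^ (j + 1) := by
    intro j
    simp only [hκ]
    rw [pow_succ]; ring
  have hind : ∀ j : ℕ, ‖J (w (κ j))‖ ≤ η * ρ ^ j := by
    intro j
    induction j with
    | zero =>
      rw [pow_zero, mul_one]
      refine le_trans ?_ hη
      apply Lp.norm_le_norm_of_ae_le
      filter_upwards [hw (κ 0)] with x e2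
      rw [e2, Real.norm_eq_abs, Real.norm_eq_abs, abs_of_nonneg (le_max_right _ _)]
      have e0 : κ 0 = 0 := by simp [hκ]
      rw [e0, zero_mul, sub_zero]
      exact max_le (le_abs_self _) (abs_nonneg _)
    | succ j ih =>
      have hlt : κ j < κ (j + 1) := by
        have := hκd j
        have h3 : 0 < ε * (1 / 2 : ℝ) ^ (j + 1) := by positivity
        linarith
      have h3 := level hD hv hsup hM hz hη h1 (hκ0 j) hlt (hw (κ j)) (hw (κ (j + 1))) (hn _)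
      rw [hκd] at h3
      have e1 : (ε * (1 / 2 : ℝ) ^ (j + 1)) ^ (q - 1) =
          ((2 / ε) ^ (q - 1) * ((2 : ℝ) ^ (q - 1)) ^ j)⁻¹ := by
        have e2 : ((2 : ℝ) ^ (q - 1)) ^ j = ((2 : ℝ) ^ j) ^ (q - 1) := by
          rw [← Real.rpow_natCast, ← Real.rpow_natCast, ← Real.rpow_mul (by norm_num),
            ← Real.rpow_mul (by norm_num), mul_comm]
        rw [e2, ← Real.mul_rpow (by positivity) (by positivity), ← Real.inv_rpow (by positivity)]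
        congr 1
        rw [pow_succ, one_div, inv_pow]
        field_simp
      have e3 : (η * ρ ^ j) ^ (q - 1) = η * η ^ (q - 2) * (ρ ^ (q - 1)) ^ j := by
        rw [Real.mul_rpow hη0'.le (by positivity)]
        congr 1
        · rw [mul_comm, ← Real.rpow_add_one hη0'.ne']; congr 1; ring
        · rw [← Real.rpow_natCast, ← Real.rpow_natCast, ← Real.rpow_mul hρ0.le,
            ← Real.rpow_mul hρ0.le, mul_comm]
      have e4 : (1 + 2 ^ (q - 1) * κ (j + 1) ^ (q - 1)) ≤ 1 + 2 ^ (q - 1) * ε ^ (q - 1) := by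
        have := Real.rpow_le_rpow (hκ0 (j + 1)) (hκε (j + 1)) (by linarith : (0 : ℝ) ≤ q - 1)
        gcongr
      have e5 : ‖J (w (κ j))‖ ^ (q - 1) ≤ (η * ρ ^ j) ^ (q - 1) :=
        Real.rpow_le_rpow (norm_nonneg _) ih (by linarith)
      have e6 : ((2 : ℝ) ^ (q - 1)) ^ j * (ρ ^ (q - 1)) ^ j = ρ ^ j := by
        rw [← mul_pow, hρr]
      rw [e1, div_inv_eq_mul] at h3
      have hκp : 0 ≤ κ (j + 1) ^ (q - 1) := Real.rpow_nonneg (hκ0 _) _
      calc ‖J (w (κ (j + 1)))‖ ≤ _ := h3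
        _ ≤ 2 * ‖J‖ ^ 2 * M * ((1 + 2 ^ (q - 1) * ε ^ (q - 1)) *
            ((2 / ε) ^ (q - 1) * ((2 : ℝ) ^ (q - 1)) ^ j)) * (η * ρ ^ j) ^ (q - 1) := by
            gcongr
        _ = η * (B * (2 / ε) ^ (q - 1) * η ^ (q - 2)) *
            (((2 : ℝ) ^ (q - 1)) ^ j * (ρ ^ (q - 1)) ^ j) := by rw [e3, hB]; ring
        _ ≤ η * ρ * ρ ^ j := by rw [e6]; gcongr
        _ = _ := by ring
  have hfin : ∀ j : ℕ, ‖J (w ε)‖ ≤ η * ρ ^ j := by
    intro j
    refine le_trans ?_ (hind j)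
    apply Lp.norm_le_norm_of_ae_le
    filter_upwards [hw ε, hw (κ j), hv] with x e1 e2 e3
    have e3' : 0 ≤ J v0 x := e3
    rw [e1, e2, Real.norm_eq_abs, Real.norm_eq_abs, abs_of_nonneg (le_max_right _ _),
      abs_of_nonneg (le_max_right _ _)]
    have := mul_le_mul_of_nonneg_right (hκε j) e3'
    exact max_le_max (by linarith) le_rfl
  have hlim : Tendsto (fun j : ℕ => η * ρ ^ j) atTop (𝓝 (η * 0)) :=
    (tendsto_pow_atTop_nhds_zero_of_lt_one hρ0.le hρ1).const_mul η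
  rw [mul_zero] at hlim
  have h0 : ‖J (w ε)‖ ≤ 0 := ge_of_tendsto' hlim hfin
  have h00 : J (w ε) = 0 := norm_le_zero_iff.1 h0
  have h3 := hw ε
  rw [h00] at h3
  filter_upwards [h3, Lp.coeFn_zero ℝ p μ] with x e1 e2
  rw [e2] at e1
  have e3 : max (J z x - ε * J v0 x) 0 = 0 := e1.symm
  have := le_max_left (J z x - ε * J v0 x) 0
  linarith

end Pool.Agent.H571Z.Iso
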