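import Pool.Agent.H571Z.Iso.A2
set_option autoImplicit false
set_option linter.unusedSectionVars false
set_option linter.unusedVariables false
open MeasureTheory Filter Topology Set
open scoped ENNReal NNReal InnerProductSpace

namespace Pool.Agent.H571Z.Iso

variable {α : Type*} [MeasurableSpace α] {μ : Measure α}
  {H : Type*} [NormedAddCommGroup H] [InnerProductSpace ℝ H] [CompleteSpace H]
  {p : ℝ≥0∞} [Fact (1 ≤ p)] {J : H →L[ℝ] Lp ℝ p μ} {q : ℝ}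

/-- measurability of the weight -/
theorem wmeas (u0 : H) (q : ℝ) :
    AEMeasurable (fun x => ENNReal.ofReal (|J u0 x| ^ q)) μ :=
  (((aem (J := J) u0).norm.aemeasurable.pow_const q)).ennreal_ofReal

theorem ae_of_m (u0 : H) {q : ℝ} {P : α → Prop}
    (h : ∀ᵐ x ∂(μ.withDensity fun x => ENNReal.ofReal (|J u0 x| ^ q)), P x) :
    ∀ᵐ x ∂μ, J u0 x ≠ 0 → P x := by
  rw [ae_withDensity_iff' (wmeas u0 q)] at h
  filter_upwards [h] with x hx h0
  apply hx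
  have : 0 < |J u0 x| ^ q := Real.rpow_pos_of_pos (abs_pos.2 h0) _
  simpa using this

theorem ae_to_m (u0 : H) {q : ℝ} (hq : 0 < q) {P : α → Prop}
    (h : ∀ᵐ x ∂μ, J u0 x ≠ 0 → P x) :
    ∀ᵐ x ∂(μ.withDensity fun x => ENNReal.ofReal (|J u0 x| ^ q)), P x := by
  rw [ae_withDensity_iff' (wmeas u0 q)]
  filter_upwards [h] with x hx h0
  apply hx
  rintro h1
  apply h0
  rw [h1, abs_zero, Real.zero_rpow hq.ne', ENNReal.ofReal_zero]

theorem absU (hq : 2 < q) (a : ℝ) : |(|a| ^ (q - 2) * a)| = |a| ^ (q - 1) := by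
  rw [abs_mul, abs_of_nonneg (Real.rpow_nonneg (abs_nonneg a) _)]
  rcases (abs_nonneg a).eq_or_lt with h0 | h0
  · rw [← h0, Real.zero_rpow (by linarith : q - 1 ≠ 0)]; simp
  · rw [← Real.rpow_add_one h0.ne']; congr 1; ring

theorem Fbound (hq : 2 < q) (u0 : H)
    (y : Lp ℝ ∞ (μ.withDensity fun x => ENNReal.ofReal (|J u0 x| ^ q))) :
    ∀ᵐ x ∂μ, |(|J u0 x| ^ (q - 2) * J u0 x * y x)| ≤ ‖y‖ * |J u0 x| ^ (q - 1) := by
  have h : ∀ᵐ x ∂(μ.withDensity fun x => ENNReal.ofReal (|J u0 x| ^ q)), ‖y x‖ ≤ ‖y‖ := by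
    have h1 := ae_le_eLpNormEssSup (f := y)
      (μ := (μ.withDensity fun x => ENNReal.ofReal (|J u0 x| ^ q)))
    filter_upwards [h1] with x hx
    have h2 : ‖y‖ = (eLpNormEssSup y
      (μ.withDensity fun x => ENNReal.ofReal (|J u0 x| ^ q))).toReal := by
      rw [Lp.norm_def, eLpNorm_exponent_top]
    have h3 : eLpNormEssSup y (μ.withDensity fun x => ENNReal.ofReal (|J u0 x| ^ q)) ≠ ∞ := by
      rw [← eLpNorm_exponent_top]; exact (Lp.memLp y).2.ne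
    rw [h2, ← toReal_enorm]
    exact (ENNReal.toReal_le_toReal (by simp) h3).2 hx
  filter_upwards [ae_of_m u0 h] with x hx
  rw [abs_mul, absU hq]
  by_cases h0 : J u0 x = 0
  · rw [h0, abs_zero, Real.zero_rpow (by linarith : q - 1 ≠ 0)]; simp
  · rw [mul_comm]
    exact mul_le_mul_of_nonneg_right (by simpa [Real.norm_eq_abs] using hx h0)
      (Real.rpow_nonneg (abs_nonneg _) _)

theorem Fmeas (u0 : H)
    (y : Lp ℝ ∞ (μ.withDensity fun x => ENNReal.ofReal (|J u0 x| ^ q))) :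
    AEStronglyMeasurable (fun x => |J u0 x| ^ (q - 2) * J u0 x * y x) μ :=
  (((((aem (J := J) u0).norm.aemeasurable.pow_const (q - 2)).aestronglyMeasurable).mul
        (aem u0))).mul (Lp.stronglyMeasurable y).aestronglyMeasurable

theorem Fint (hD : Dq μ J q) (u0 : H)
    (y : Lp ℝ ∞ (μ.withDensity fun x => ENNReal.ofReal (|J u0 x| ^ q))) (φ : H) :
    Integrable (fun x => |J u0 x| ^ (q - 2) * J u0 x * y x * J φ x) μ :=
  int_dom hD u0 (Fmeas u0 y) (Fbound hD.two_lt u0 y) φ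

theorem Gex (hD : Dq μ J q) (u0 : H)
    (y : Lp ℝ ∞ (μ.withDensity fun x => ENNReal.ofReal (|J u0 x| ^ q))) :
    ∃ g : H, ∀ φ : H, ⟪g, φ⟫_ℝ = ∫ x, |J u0 x| ^ (q - 2) * J u0 x * y x * J φ x ∂μ :=
  riesz hD u0 (Fmeas u0 y) (norm_nonneg y) (Fbound hD.two_lt u0 y)

/-- `|J (G y)| ≤ ‖y‖ V` -/
theorem Gbound (hD : Dq μ J q) (u0 v0 : H)
    (hv0 : J v0 =ᵐ[μ] fun x => |J u0 x|)
    (hsup : ∀ φ : H, 0 ≤ᵐ[μ] J φ → ∫ x, (J v0 x) ^ (q - 1) * J φ x ∂μ ≤ ⟪v0, φ⟫_ℝ)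
    (y : Lp ℝ ∞ (μ.withDensity fun x => ENNReal.ofReal (|J u0 x| ^ q))) (g : H)
    (hg : ∀ φ : H, ⟪g, φ⟫_ℝ = ∫ x, |J u0 x| ^ (q - 2) * J u0 x * y x * J φ x ∂μ) :
    ∀ᵐ x ∂μ, |J g x| ≤ ‖y‖ * |J u0 x| := by
  have hV : ∀ φ : H, (∫ x, (J v0 x) ^ (q - 1) * J φ x ∂μ) =
      ∫ x, |J u0 x| ^ (q - 1) * J φ x ∂μ := by
    intro φ
    refine integral_congr_ae ?_
    filter_upwards [hv0] with x hx
    rw [hx]
  have hsub : ∀ (z : H), ∀ᵐ x ∂μ, J (z - ‖y‖ • v0) x = J z x - ‖y‖ * |J u0 x| := by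
    intro z
    have h1 := Lp.coeFn_sub (J z) (J (‖y‖ • v0))
    have h2 := Lp.coeFn_smul ‖y‖ (J v0)
    rw [← map_smul] at h2
    rw [← map_sub] at h1
    filter_upwards [h1, h2, hv0] with x h1 h2 h3
    rw [h1, Pi.sub_apply, h2, Pi.smul_apply, h3, smul_eq_mul]
  have hp : ∀ᵐ x ∂μ, J (g - ‖y‖ • v0) x ≤ 0 := by
    refine le_zero_of_cut hD _ fun φ hφ _ => ?_
    rw [inner_sub_left, inner_smul_left, hg, sub_nonpos]
    calc ∫ x, |J u0 x| ^ (q - 2) * J u0 x * y x * J φ x ∂μ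
        ≤ ∫ x, ‖y‖ * (|J u0 x| ^ (q - 1) * J φ x) ∂μ := by
          refine integral_mono_ae (Fint hD u0 y φ) ((int1 hD u0 φ).const_mul _) ?_
          filter_upwards [Fbound hD.two_lt u0 y, hφ] with x hx h0
          simp only [Pi.zero_apply] at h0
          rw [← mul_assoc]
          exact mul_le_mul_of_nonneg_right ((le_abs_self _).trans hx) h0
      _ = ‖y‖ * ∫ x, |J u0 x| ^ (q - 1) * J φ x ∂μ := integral_const_mul _ _
      _ ≤ _ := by
          rw [← hV]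
          exact mul_le_mul_of_nonneg_left (hsup φ hφ) (norm_nonneg _)
  have hm : ∀ᵐ x ∂μ, J (-g - ‖y‖ • v0) x ≤ 0 := by
    refine le_zero_of_cut hD _ fun φ hφ _ => ?_
    rw [inner_sub_left, inner_smul_left, inner_neg_left, hg, sub_nonpos, ← integral_neg]
    calc ∫ x, -(|J u0 x| ^ (q - 2) * J u0 x * y x * J φ x) ∂μ
        ≤ ∫ x, ‖y‖ * (|J u0 x| ^ (q - 1) * J φ x) ∂μ := by
          refine integral_mono_ae (Fint hD u0 y φ).neg ((int1 hD u0 φ).const_mul _) ?_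
          filter_upwards [Fbound hD.two_lt u0 y, hφ] with x hx h0
          simp only [Pi.zero_apply] at h0
          rw [← mul_assoc, ← neg_mul]
          exact mul_le_mul_of_nonneg_right ((neg_le_abs _).trans hx) h0
      _ = ‖y‖ * ∫ x, |J u0 x| ^ (q - 1) * J φ x ∂μ := integral_const_mul _ _
      _ ≤ _ := by
          rw [← hV]
          exact mul_le_mul_of_nonneg_left (hsup φ hφ) (norm_nonneg _)
  have hneg : ∀ᵐ x ∂μ, J (-g) x = - J g x := by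
    rw [map_neg]; exact Lp.coeFn_neg _
  filter_upwards [hp, hm, hsub g, hsub (-g), hneg] with x h1 h2 h3 h4 h5
  rw [h3] at h1
  rw [h4, h5] at h2
  exact abs_le.2 ⟨by linarith, by linarith⟩

theorem gnorm (hD : Dq μ J q) (u0 v0 : H)
    (hv0 : J v0 =ᵐ[μ] fun x => |J u0 x|)
    (hsup : ∀ φ : H, 0 ≤ᵐ[μ] J φ → ∫ x, (J v0 x) ^ (q - 1) * J φ x ∂μ ≤ ⟪v0, φ⟫_ℝ)
    (y : Lp ℝ ∞ (μ.withDensity fun x => ENNReal.ofReal (|J u0 x| ^ q))) (g : H)
    (hg : ∀ φ : H, ⟪g, φ⟫_ℝ = ∫ x, |J u0 x| ^ (q - 2) * J u0 x * y x * J φ x ∂μ) :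
    ‖g‖ ^ 2 ≤ ‖y‖ ^ 2 * ∫ x, |J u0 x| ^ q ∂μ := by
  rw [← real_inner_self_eq_norm_sq, hg, ← integral_const_mul]
  refine integral_mono_ae (Fint hD u0 y g) ((intq hD u0).const_mul _) ?_
  filter_upwards [Fbound hD.two_lt u0 y, Gbound hD u0 v0 hv0 hsup y g hg] with x h1 h2
  have hq := hD.two_lt
  calc |J u0 x| ^ (q - 2) * J u0 x * y x * J g x
      ≤ |(|J u0 x| ^ (q - 2) * J u0 x * y x * J g x)| := le_abs_self _
    _ = |(|J u0 x| ^ (q - 2) * J u0 x * y x)| * |J g x| := abs_mul _ _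
    _ ≤ (‖y‖ * |J u0 x| ^ (q - 1)) * (‖y‖ * |J u0 x|) :=
        mul_le_mul h1 h2 (abs_nonneg _) (by positivity)
    _ = ‖y‖ ^ 2 * (|J u0 x| ^ (q - 1) * |J u0 x|) := by ring
    _ = ‖y‖ ^ 2 * |J u0 x| ^ q := by
        congr 1
        rcases (abs_nonneg (J u0 x)).eq_or_lt with h0 | h0
        · rw [← h0, Real.zero_rpow (by linarith : q ≠ 0)]; simp
        · rw [← Real.rpow_add_one h0.ne']; congr 1; ring

theorem sup_nonneg (hD : Dq μ J q) (u0 v0 : H)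
    (hv0 : J v0 =ᵐ[μ] fun x => |J u0 x|)
    (hsup : ∀ φ : H, 0 ≤ᵐ[μ] J φ → ∫ x, (J v0 x) ^ (q - 1) * J φ x ∂μ ≤ ⟪v0, φ⟫_ℝ) :
    0 ≤ᵐ[μ] J v0 ∧ ∀ φ : H, 0 ≤ᵐ[μ] J φ → 0 ≤ ⟪v0, φ⟫_ℝ := by
  have h1 : 0 ≤ᵐ[μ] J v0 := by
    filter_upwards [hv0] with x hx
    rw [hx]; exact abs_nonneg _
  refine ⟨h1, fun φ hφ => le_trans ?_ (hsup φ hφ)⟩
  refine integral_nonneg_of_ae ?_
  filter_upwards [h1, hφ] with x e1 e2
  exact mul_nonneg (Real.rpow_nonneg e1 _) e2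

theorem smallOne (hD : Dq μ J q) (u0 v0 : H)
    (hv0 : J v0 =ᵐ[μ] fun x => |J u0 x|)
    (hsup : ∀ φ : H, 0 ≤ᵐ[μ] J φ → ∫ x, (J v0 x) ^ (q - 1) * J φ x ∂μ ≤ ⟪v0, φ⟫_ℝ)
    {ε : ℝ} (hε : 0 < ε) :
    ∃ η > 0, ∀ (y : Lp ℝ ∞ (μ.withDensity fun x => ENNReal.ofReal (|J u0 x| ^ q))) (g : H),
      ‖y‖ ≤ 2 →
      (∀ φ : H, ⟪g, φ⟫_ℝ = ∫ x, |J u0 x| ^ (q - 2) * J u0 x * y x * J φ x ∂μ) →
      ‖J g‖ ≤ η → ∀ᵐ x ∂μ, J g x ≤ ε * |J u0 x| := by
  obtain ⟨hv, hs⟩ := sup_nonneg hD u0 v0 hv0 hsup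
  obtain ⟨η, hη, hst⟩ := stamp hD hv hs (M := 2) (by norm_num) hε
  refine ⟨η, hη, fun y g hy hg hJ => ?_⟩
  have h1 := hst g (fun φ hφ => ?_) hJ
  · filter_upwards [h1, hv0] with x e1 e2
    rwa [e2] at e1
  · rw [hg, ← integral_const_mul]
    refine integral_mono_ae (Fint hD u0 y φ) ?_ ?_
    · refine (((int1 hD v0 φ).add (int1 hD g φ)).const_mul 2).congr ?_
      filter_upwards with x
      simp only [Pi.add_apply]; ring
    · filter_upwards [Fbound hD.two_lt u0 y, hφ, hv0] with x e1 e2 e3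
      have e2' : 0 ≤ J φ x := e2
      rw [e3, abs_abs]
      have e4 : 0 ≤ |J g x| ^ (q - 1) := Real.rpow_nonneg (abs_nonneg _) _
      have e5 : 0 ≤ |J u0 x| ^ (q - 1) := Real.rpow_nonneg (abs_nonneg _) _
      have e6 : |J u0 x| ^ (q - 2) * J u0 x * y x ≤ 2 * (|J u0 x| ^ (q - 1) + |J g x| ^ (q - 1)) := by
        have := (le_abs_self _).trans e1
        nlinarith [mul_le_mul_of_nonneg_right hy e5]
      calc _ ≤ 2 * (|J u0 x| ^ (q - 1) + |J g x| ^ (q - 1)) * J φ x :=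
            mul_le_mul_of_nonneg_right e6 e2'
        _ = _ := by ring

theorem negrep (u0 : H)
    (y : Lp ℝ ∞ (μ.withDensity fun x => ENNReal.ofReal (|J u0 x| ^ q))) (g : H)
    (hg : ∀ φ : H, ⟪g, φ⟫_ℝ = ∫ x, |J u0 x| ^ (q - 2) * J u0 x * y x * J φ x ∂μ) :
    ∀ φ : H, ⟪-g, φ⟫_ℝ = ∫ x, |J u0 x| ^ (q - 2) * J u0 x * (-y) x * J φ x ∂μ := by
  intro φ
  rw [inner_neg_left, hg, ← integral_neg]
  refine integral_congr_ae ?_
  filter_upwards [ae_of_m u0 (Lp.coeFn_neg y)] with x hx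
  by_cases h0 : J u0 x = 0
  · rw [h0]; simp
  · rw [hx h0, Pi.neg_apply]; ring

theorem small (hD : Dq μ J q) (u0 v0 : H)
    (hv0 : J v0 =ᵐ[μ] fun x => |J u0 x|)
    (hsup : ∀ φ : H, 0 ≤ᵐ[μ] J φ → ∫ x, (J v0 x) ^ (q - 1) * J φ x ∂μ ≤ ⟪v0, φ⟫_ℝ)
    {ε : ℝ} (hε : 0 < ε) :
    ∃ η > 0, ∀ (y : Lp ℝ ∞ (μ.withDensity fun x => ENNReal.ofReal (|J u0 x| ^ q))) (g : H),
      ‖y‖ ≤ 2 →
      (∀ φ : H, ⟪g, φ⟫_ℝ = ∫ x, |J u0 x| ^ (q - 2) * J u0 x * y x * J φ x ∂μ) →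
      ‖J g‖ ≤ η → ∀ᵐ x ∂μ, |J g x| ≤ ε * |J u0 x| := by
  obtain ⟨η, hη, h⟩ := smallOne hD u0 v0 hv0 hsup hε
  refine ⟨η, hη, fun y g hy hg hJ => ?_⟩
  have h1 := h y g hy hg hJ
  have h2 := h (-y) (-g) (by rwa [norm_neg]) (negrep u0 y g hg) (by rwa [map_neg, norm_neg])
  have hneg : ∀ᵐ x ∂μ, J (-g) x = - J g x := by
    rw [map_neg]; exact Lp.coeFn_neg _
  filter_upwards [h1, h2, hneg] with x h1 h2 h3
  rw [h3] at h2
  exact abs_le.2 ⟨by linarith, h1⟩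

/-- existence of the quotient `J g / U` in `L^∞(m)` -/
theorem quot (hq : 0 < q) (u0 g : H) {c : ℝ} (hc : 0 ≤ c)
    (h : ∀ᵐ x ∂μ, |J g x| ≤ c * |J u0 x|) :
    ∃ t : Lp ℝ ∞ (μ.withDensity fun x => ENNReal.ofReal (|J u0 x| ^ q)),
      J g =ᵐ[μ] fun x => J u0 x * t x := by
  have hb : ∀ᵐ x ∂(μ.withDensity fun x => ENNReal.ofReal (|J u0 x| ^ q)),
      ‖J g x / J u0 x‖ ≤ c := by
    refine ae_to_m u0 hq ?_
    filter_upwards [h] with x hx h0
    rw [norm_div, Real.norm_eq_abs, Real.norm_eq_abs, div_le_iff₀ (abs_pos.2 h0)]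
    exact hx
  have hm : MemLp (fun x => J g x / J u0 x) ∞
      (μ.withDensity fun x => ENNReal.ofReal (|J u0 x| ^ q)) :=
    memLp_top_of_bound (((Lp.stronglyMeasurable (J g)).measurable.div
      (Lp.stronglyMeasurable (J u0)).measurable).aestronglyMeasurable) c hb
  refine ⟨hm.toLp _, ?_⟩
  filter_upwards [ae_of_m u0 hm.coeFn_toLp, h] with x hx h1
  by_cases h0 : J u0 x = 0
  · rw [h0, zero_mul]
    rw [h0, abs_zero, mul_zero] at h1
    exact abs_eq_zero.1 (le_antisymm h1 (abs_nonneg _))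
  · rw [hx h0]; field_simp

theorem quot_unique (hq : 0 < q) (u0 : H)
    (s t : Lp ℝ ∞ (μ.withDensity fun x => ENNReal.ofReal (|J u0 x| ^ q)))
    (h : ∀ᵐ x ∂μ, J u0 x * s x = J u0 x * t x) : s = t := by
  refine Lp.ext ?_
  refine ae_to_m u0 hq ?_
  filter_upwards [h] with x hx h0
  exact mul_left_cancel₀ h0 hx

theorem quot_norm (hq : 0 < q) (u0 : H)
    (t : Lp ℝ ∞ (μ.withDensity fun x => ENNReal.ofReal (|J u0 x| ^ q))) {c : ℝ} (hc : 0 ≤ c)
    (h : ∀ᵐ x ∂μ, |J u0 x * t x| ≤ c * |J u0 x|) : ‖t‖ ≤ c := by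
  have hb : ∀ᵐ x ∂(μ.withDensity fun x => ENNReal.ofReal (|J u0 x| ^ q)), ‖t x‖ ≤ c := by
    refine ae_to_m u0 hq ?_
    filter_upwards [h] with x hx h0
    rw [abs_mul, mul_comm] at hx
    exact le_of_mul_le_mul_right hx (abs_pos.2 h0)
  rw [Lp.norm_def, eLpNorm_exponent_top]
  refine ENNReal.toReal_le_of_le_ofReal hc (eLpNormEssSup_le_of_ae_bound hb)

theorem compT (hD : Dq μ J q) (u0 v0 : H)
    (hu0 : ∀ φ : H, ⟪u0, φ⟫_ℝ = ∫ x, |J u0 x| ^ (q - 2) * J u0 x * J φ x ∂μ)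
    (hv0 : J v0 =ᵐ[μ] fun x => |J u0 x|)
    (hsup : ∀ φ : H, 0 ≤ᵐ[μ] J φ → ∫ x, (J v0 x) ^ (q - 1) * J φ x ∂μ ≤ ⟪v0, φ⟫_ℝ) :
    ∃ T : Lp ℝ ∞ (μ.withDensity fun x => ENNReal.ofReal (|J u0 x| ^ q)) →L[ℝ]
        Lp ℝ ∞ (μ.withDensity fun x => ENNReal.ofReal (|J u0 x| ^ q)),
      IsCompactOperator T ∧
      (∀ y z, ∫ t, T y t * z t ∂(μ.withDensity fun x => ENNReal.ofReal (|J u0 x| ^ q)) =
        ∫ t, y t * T z t ∂(μ.withDensity fun x => ENNReal.ofReal (|J u0 x| ^ q))) ∧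
      ∀ y, ∃ g : H, (∀ φ : H, ⟪g, φ⟫_ℝ = ∫ x, |J u0 x| ^ (q - 2) * J u0 x * y x * J φ x ∂μ) ∧
        J g =ᵐ[μ] fun x => J u0 x * T y x := by
  have hq2 := hD.two_lt
  have hq0 : 0 < q := by linarith
  choose G hG using fun y => Gex hD u0 y
  have hGb := fun y => Gbound hD u0 v0 hv0 hsup y (G y) (hG y)
  choose T hT using fun y => quot hq0 u0 (G y) (norm_nonneg y) (hGb y)
  -- representations
  have hGadd : ∀ y z, G (y + z) = G y + G z := by
    intro y z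
    refine ext_inner_right ℝ fun φ => ?_
    rw [inner_add_left, hG, hG, hG, ← integral_add (Fint hD u0 y φ) (Fint hD u0 z φ)]
    refine integral_congr_ae ?_
    filter_upwards [ae_of_m u0 (Lp.coeFn_add y z)] with x hx
    by_cases h0 : J u0 x = 0
    · rw [h0]; simp
    · rw [hx h0, Pi.add_apply]; ring
  have hGsmul : ∀ (c : ℝ) y, G (c • y) = c • G y := by
    intro c y
    refine ext_inner_right ℝ fun φ => ?_
    rw [inner_smul_left, hG, hG, conj_trivial, ← integral_const_mul]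
    refine integral_congr_ae ?_
    filter_upwards [ae_of_m u0 (Lp.coeFn_smul c y)] with x hx
    by_cases h0 : J u0 x = 0
    · rw [h0]; simp
    · rw [hx h0, Pi.smul_apply, smul_eq_mul]; ring
  have hTadd : ∀ y z, T (y + z) = T y + T z := by
    intro y z
    refine quot_unique hq0 u0 _ _ ?_
    have h1 := hT (y + z)
    rw [hGadd, map_add] at h1
    filter_upwards [h1, Lp.coeFn_add (J (G y)) (J (G z)), hT y, hT z,
      ae_of_m u0 (Lp.coeFn_add (T y) (T z))] with x h1 h2 h3 h4 h5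
    by_cases h0 : J u0 x = 0
    · rw [h0]; simp
    · rw [← h1, h2, Pi.add_apply, h3, h4, h5 h0, Pi.add_apply]; ring
  have hTsmul : ∀ (c : ℝ) y, T (c • y) = c • T y := by
    intro c y
    refine quot_unique hq0 u0 _ _ ?_
    have h1 := hT (c • y)
    rw [hGsmul, map_smul] at h1
    filter_upwards [h1, Lp.coeFn_smul c (J (G y)), hT y,
      ae_of_m u0 (Lp.coeFn_smul c (T y))] with x h1 h2 h3 h5
    by_cases h0 : J u0 x = 0
    · rw [h0]; simp
    · rw [← h1, h2, Pi.smul_apply, h3, h5 h0, Pi.smul_apply, smul_eq_mul, smul_eq_mul]; ring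
  have hTn : ∀ y, ‖T y‖ ≤ 1 * ‖y‖ := by
    intro y
    rw [one_mul]
    refine quot_norm hq0 u0 _ (norm_nonneg y) ?_
    filter_upwards [hT y, hGb y] with x h1 h2
    rw [← h1]; exact h2
  let TL : Lp ℝ ∞ (μ.withDensity fun x => ENNReal.ofReal (|J u0 x| ^ q)) →ₗ[ℝ]
      Lp ℝ ∞ (μ.withDensity fun x => ENNReal.ofReal (|J u0 x| ^ q)) :=
    { toFun := T
      map_add' := hTadd
      map_smul' := hTsmul }
  refine ⟨TL.mkContinuous 1 hTn, ?_, ?_, ?_⟩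
  · -- compactness
    have hco : ∀ y, (TL.mkContinuous 1 hTn) y = T y := fun y => rfl
    have key : TotallyBounded ((fun y => T y) '' Metric.closedBall 0 1) := by
      rw [Metric.totallyBounded_iff]
      intro ε hε
      obtain ⟨η, hη, hs⟩ := small hD u0 v0 hv0 hsup (half_pos hε)
      have hS : TotallyBounded ((fun y => J (G y)) '' Metric.closedBall
          (0 : Lp ℝ ∞ (μ.withDensity fun x => ENNReal.ofReal (|J u0 x| ^ q))) 1) := by
        set I : ℝ := ∫ x, |J u0 x| ^ q ∂μ with hI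
        have hI0 : 0 ≤ I := integral_nonneg fun x => Real.rpow_nonneg (abs_nonneg _) _
        have hc := hD.comp
        have h1 : IsCompact (closure (J '' Metric.closedBall 0 (I + 1))) :=
          hc.isCompact_closure_image_closedBall (I + 1)
        refine h1.totallyBounded.subset ?_
        rintro _ ⟨y, hy, rfl⟩
        refine subset_closure ⟨G y, ?_, rfl⟩
        rw [mem_closedBall_zero_iff] at hy ⊢
        have h2 := gnorm hD u0 v0 hv0 hsup y (G y) (hG y)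
        have h3 : ‖y‖ ^ 2 ≤ 1 := by nlinarith [norm_nonneg y]
        have h4 : ‖G y‖ ^ 2 ≤ I := by nlinarith
        nlinarith [norm_nonneg (G y), sq_nonneg (‖G y‖ - 1)]
      obtain ⟨t, htS, htf, htc⟩ := Metric.finite_approx_of_totallyBounded hS η hη
      obtain ⟨t', ht', htf', htt⟩ : ∃ t' ⊆ Metric.closedBall
          (0 : Lp ℝ ∞ (μ.withDensity fun x => ENNReal.ofReal (|J u0 x| ^ q))) 1,
          t'.Finite ∧ (fun y => J (G y)) '' t' = t := by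
        obtain ⟨t', h1, h2, h3⟩ := exists_subset_image_finite_and.1 ⟨t, htS, htf, rfl⟩
        exact ⟨t', h1, h2, h3.symm⟩
      refine ⟨(fun y => T y) '' t', htf'.image _, ?_⟩
      rintro _ ⟨y, hy, rfl⟩
      have h1 := htc ⟨y, hy, rfl⟩
      rw [mem_iUnion₂] at h1
      obtain ⟨pp, hp, hyp⟩ := h1
      rw [← htt] at hp
      obtain ⟨y', hy', rfl⟩ := hp
      rw [mem_iUnion₂]
      refine ⟨T y', ⟨y', hy', rfl⟩, ?_⟩
      rw [mem_closedBall_zero_iff] at hy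
      have hy'' := ht' hy'
      rw [mem_closedBall_zero_iff] at hy''
      have hGsub : G (y - y') = G y - G y' := by
        have := hGadd (y - y') y'
        rw [sub_add_cancel] at this
        rw [this, add_sub_cancel_right]
      have hTsub : T (y - y') = T y - T y' := by
        have := hTadd (y - y') y'
        rw [sub_add_cancel] at this
        rw [this, add_sub_cancel_right]
      have h2 := hs (y - y') (G (y - y')) (by
        calc ‖y - y'‖ ≤ ‖y‖ + ‖y'‖ := norm_sub_le _ _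
          _ ≤ 2 := by linarith) (hG _) (by
        rw [hGsub, map_sub, ← dist_eq_norm]
        exact (Metric.mem_ball.1 hyp).le)
      have h3 : ‖T (y - y')‖ ≤ ε / 2 := by
        refine quot_norm hq0 u0 _ (half_pos hε).le ?_
        filter_upwards [hT (y - y'), h2] with x h1 h2
        rw [← h1]; exact h2
      rw [Metric.mem_ball, dist_eq_norm, ← hTsub]
      linarith
    have := isCompactOperator_iff_isCompact_closure_image_closedBall
      (TL.mkContinuous 1 hTn).toLinearMap (zero_lt_one)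
    refine this.2 ?_
    exact key.closure.isCompact_of_isClosed isClosed_closure
  · -- symmetry
    intro y z
    have hw : ∀ f : α → ℝ, ∫ t, f t ∂(μ.withDensity fun x => ENNReal.ofReal (|J u0 x| ^ q)) =
        ∫ x, |J u0 x| ^ q * f x ∂μ := by
      intro f
      rw [integral_withDensity_eq_integral_toReal_smul₀ (wmeas u0 q)
        (Eventually.of_forall fun x => ENNReal.ofReal_lt_top)]
      refine integral_congr_ae (Eventually.of_forall fun x => ?_)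
      simp only [smul_eq_mul]
      rw [ENNReal.toReal_ofReal (Real.rpow_nonneg (abs_nonneg _) _)]
    have hpow : ∀ a : ℝ, |a| ^ q = |a| ^ (q - 2) * a * a := by
      intro a
      rcases (abs_nonneg a).eq_or_lt with h0 | h0
      · have : a = 0 := abs_eq_zero.1 h0.symm
        rw [this, abs_zero, Real.zero_rpow (by linarith : q ≠ 0)]; simp
      · have h2 : a * a = |a| ^ (2 : ℝ) := by
          rw [Real.rpow_two, sq_abs]; ring
        rw [mul_assoc, h2, ← Real.rpow_add h0]; congr 1; ring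
    have h1 : ∀ y z : Lp ℝ ∞ (μ.withDensity fun x => ENNReal.ofReal (|J u0 x| ^ q)),
        ∫ x, |J u0 x| ^ q * (T y x * z x) ∂μ = ⟪G z, G y⟫_ℝ := by
      intro y z
      rw [hG]
      refine integral_congr_ae ?_
      filter_upwards [hT y] with x hx
      rw [hx, hpow]; ring
    change ∫ t, T y t * z t ∂_ = ∫ t, y t * T z t ∂_
    rw [hw, hw, h1]
    have h2 : ∫ x, |J u0 x| ^ q * (y x * T z x) ∂μ = ⟪G y, G z⟫_ℝ := by
      rw [← h1]
      refine integral_congr_ae (Eventually.of_forall fun x => ?_)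
      simp only; ring
    rw [h2, real_inner_comm]
  · intro y
    exact ⟨G y, hG y, hT y⟩


theorem grow_pt {q a b : ℝ} (hq : 2 < q) :
    |(|a| ^ (q - 2) * a - |b| ^ (q - 2) * b)| ≤
      (2 ^ (q - 1) + 1) * (|b| ^ (q - 1) + |a - b| ^ (q - 1)) := by
  have h1 : |(|a| ^ (q - 2) * a - |b| ^ (q - 2) * b)| ≤ |a| ^ (q - 1) + |b| ^ (q - 1) := by
    refine (abs_sub _ _).trans ?_
    rw [absU hq, absU hq]
  have h2 : |a| ^ (q - 1) ≤ (|b| + |a - b|) ^ (q - 1) := by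
    refine Real.rpow_le_rpow (abs_nonneg _) ?_ (by linarith)
    have := abs_add_le b (a - b)
    simpa using this
  have h3 : (|b| + |a - b|) ^ (q - 1) ≤ 2 ^ (q - 1) * (|b| ^ (q - 1) + |a - b| ^ (q - 1)) :=
    Pool.Agent.Helper420.QI.W1.w1_add_rpow (abs_nonneg _) (abs_nonneg _) (by linarith)
  have h4 : 0 ≤ |a - b| ^ (q - 1) := Real.rpow_nonneg (abs_nonneg _) _
  nlinarith

theorem int_f (hD : Dq μ J q) (u φ : H) :
    Integrable (fun x => |J u x| ^ (q - 2) * J u x * J φ x) μ := by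
  refine int_dom hD u (c := 1) ?_ (Eventually.of_forall fun x => ?_) φ
  · exact (((aem (J := J) u).norm.aemeasurable.pow_const (q - 2)).aestronglyMeasurable).mul (aem u)
  · rw [absU hD.two_lt, one_mul]

theorem near (hD : Dq μ J q) (u0 v0 : H)
    (hu0 : ∀ φ : H, ⟪u0, φ⟫_ℝ = ∫ x, |J u0 x| ^ (q - 2) * J u0 x * J φ x ∂μ)
    (hv0 : J v0 =ᵐ[μ] fun x => |J u0 x|)
    (hsup : ∀ φ : H, 0 ≤ᵐ[μ] J φ → ∫ x, (J v0 x) ^ (q - 1) * J φ x ∂μ ≤ ⟪v0, φ⟫_ℝ)
    (u : ℕ → H)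
    (hu : ∀ n, ∀ φ : H, ⟪u n, φ⟫_ℝ = ∫ x, |J (u n) x| ^ (q - 2) * J (u n) x * J φ x ∂μ)
    (hlim : Tendsto u atTop (𝓝 u0)) {ε : ℝ} (hε : 0 < ε) :
    ∀ᶠ n in atTop, ∀ᵐ x ∂μ, |J (u n) x - J u0 x| ≤ ε * |J u0 x| := by
  have hq := hD.two_lt
  obtain ⟨hv, hs⟩ := sup_nonneg hD u0 v0 hv0 hsup
  obtain ⟨η, hη, hst⟩ := stamp hD hv hs (M := 2 ^ (q - 1) + 1) (by positivity) hε
  have h1 : Tendsto (fun n => ‖J (u n - u0)‖) atTop (𝓝 0) := by
    have := ((J.continuous.tendsto (u0 - u0)).comp (hlim.sub_const u0)).norm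
    simpa using this
  filter_upwards [h1.eventually (gt_mem_nhds hη)] with n hn
  have key : ∀ (s : ℝ), |s| = 1 → ∀ φ : H, 0 ≤ᵐ[μ] J φ → ⟪s • (u n - u0), φ⟫_ℝ ≤
      (2 ^ (q - 1) + 1) * ∫ x, (|J v0 x| ^ (q - 1) + |J (s • (u n - u0)) x| ^ (q - 1)) * J φ x ∂μ := by
    intro s hs1 φ hφ
    rw [inner_smul_left, inner_sub_left, hu n, hu0, conj_trivial,
      ← integral_sub (int_f hD _ φ) (int_f hD _ φ), ← integral_const_mul, ← integral_const_mul]
    refine integral_mono_ae (((int_f hD _ φ).sub (int_f hD _ φ)).const_mul s) ?_ ?_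
    · refine (((int1 hD v0 φ).add (int1 hD (s • (u n - u0)) φ)).const_mul (2 ^ (q - 1) + 1)).congr ?_
      filter_upwards with x
      simp only [Pi.add_apply]; ring
    · filter_upwards [hφ, hv0, jsmul (J := J) s (u n - u0), jsub (J := J) (u n) u0]
        with x e2 e3 e4 e5
      have e2' : 0 ≤ J φ x := e2
      rw [e3, abs_abs, e4, e5, abs_mul, hs1, one_mul]
      have e6 := grow_pt (a := J (u n) x) (b := J u0 x) hq
      have e7 : s * (|J (u n) x| ^ (q - 2) * J (u n) x - |J u0 x| ^ (q - 2) * J u0 x) ≤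
          (2 ^ (q - 1) + 1) * (|J u0 x| ^ (q - 1) + |J (u n) x - J u0 x| ^ (q - 1)) := by
        refine (le_abs_self _).trans ?_
        rw [abs_mul, hs1, one_mul]
        exact e6
      calc _ = s * (|J (u n) x| ^ (q - 2) * J (u n) x - |J u0 x| ^ (q - 2) * J u0 x) * J φ x := by
            ring
        _ ≤ (2 ^ (q - 1) + 1) * (|J u0 x| ^ (q - 1) + |J (u n) x - J u0 x| ^ (q - 1)) * J φ x :=
            mul_le_mul_of_nonneg_right e7 e2'
        _ = _ := by ring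
  have hnorm : ∀ s : ℝ, |s| = 1 → ‖J (s • (u n - u0))‖ ≤ η := by
    intro s hs1
    rw [map_smul, norm_smul, Real.norm_eq_abs, hs1, one_mul]
    exact hn.le
  have a1 := hst _ (key 1 abs_one) (hnorm 1 abs_one)
  have a2 := hst _ (key (-1) (by simp)) (hnorm (-1) (by simp))
  filter_upwards [a1, a2, hv0, jsmul (J := J) 1 (u n - u0), jsmul (J := J) (-1) (u n - u0),
    jsub (J := J) (u n) u0] with x e1 e2 e3 e4 e5 e6
  rw [e4, e3, e6] at e1
  rw [e5, e3, e6] at e2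
  exact abs_le.2 ⟨by linarith, by linarith⟩

end Pool.Agent.H571Z.Iso
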