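import Pool.Agent.H571Z.Iso.A4
import Pool.Agent.Helper420.QI.V1
set_option autoImplicit false
set_option linter.unusedSectionVars false
set_option linter.unusedVariables false
open MeasureTheory Filter Topology Set
open scoped ENNReal NNReal InnerProductSpace

namespace Pool.Agent.H571Z.Iso

variable {α : Type*} [MeasurableSpace α] {μ : Measure α}
  {H : Type*} [NormedAddCommGroup H] [InnerProductSpace ℝ H] [CompleteSpace H]
  {p : ℝ≥0∞} [Fact (1 ≤ p)] {J : H →L[ℝ] Lp ℝ p μ} {q : ℝ}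

theorem EL (hD : Dq μ J q) {l1 : ℝ} (hl : ∀ v : H, l1 * ‖J v‖ ^ 2 ≤ ‖v‖ ^ 2) {w : H}
    (hw : ‖J w‖ = 1) (hwl : ‖w‖ ^ 2 = l1) (φ : H) :
    ⟪w, φ⟫_ℝ = l1 * ∫ x, |J w x| ^ (q - 2) * J w x * J φ x ∂μ := by
  have hq := hD.two_lt
  have hq0 : 0 < q := by linarith
  set c := ∫ x, |J w x| ^ (q - 2) * J w x * J φ x ∂μ with hc
  have hl0 : 0 ≤ l1 := by rw [← hwl]; positivity
  have hI : ∀ t : ℝ, 1 + q * t * c ≤ ‖J (w + t • φ)‖ ^ q := by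
    intro t
    have e1 : (1 : ℝ) = ∫ x, |J w x| ^ q ∂μ := by rw [← norm_pow hD, hw, Real.one_rpow]
    have e2 : 1 + q * t * c = ∫ x, (|J w x| ^ q + q * t * (|J w x| ^ (q - 2) * J w x * J φ x)) ∂μ := by
      rw [integral_add (intq hD w) ((int_f hD w φ).const_mul _), integral_const_mul, ← e1]
    rw [e2, norm_pow hD]
    refine integral_mono_ae ((intq hD w).add ((int_f hD w φ).const_mul _)) (intq hD _) ?_
    have h1 : J (w + t • φ) =ᵐ[μ] fun x => J w x + t * J φ x := by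
      rw [map_add, map_smul]
      filter_upwards [Lp.coeFn_add (J w) (t • J φ), Lp.coeFn_smul t (J φ)] with x hx hx'
      rw [hx, Pi.add_apply, hx', Pi.smul_apply, smul_eq_mul]
    filter_upwards [h1] with x hx
    show |J w x| ^ q + q * t * (|J w x| ^ (q - 2) * J w x * J φ x) ≤ |J (w + t • φ) x| ^ q
    rw [hx]
    have := Pool.Agent.Helper420.QI.V1.conv_pt hq (J w x) (t * J φ x)
    calc |J w x| ^ q + q * t * (|J w x| ^ (q - 2) * J w x * J φ x) =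
        |J w x| ^ q + q * (|J w x| ^ (q - 2) * J w x * (t * J φ x)) := by ring
      _ ≤ _ := this
  let F : ℝ → ℝ := fun t => (‖w‖ ^ 2 + 2 * (t * ⟪w, φ⟫_ℝ) + t ^ 2 * ‖φ‖ ^ 2) -
    l1 * (1 + q * t * c) ^ (2 / q)
  have hF0 : F 0 = 0 := by
    simp [F, hwl]
  have hmin : IsLocalMin F 0 := by
    have hev : ∀ᶠ t in 𝓝 (0 : ℝ), 0 < 1 + q * t * c := by
      have : Continuous (fun t : ℝ => 1 + q * t * c) := by fun_prop
      exact (this.tendsto 0).eventually_const_lt (by simp)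
    filter_upwards [hev] with t ht
    rw [hF0]
    have h1 : ‖w + t • φ‖ ^ 2 = ‖w‖ ^ 2 + 2 * (t * ⟪w, φ⟫_ℝ) + t ^ 2 * ‖φ‖ ^ 2 := by
      rw [norm_add_sq_real, inner_smul_right, norm_smul, mul_pow, Real.norm_eq_abs, sq_abs]
    have h2 : (1 + q * t * c) ^ (2 / q) ≤ ‖J (w + t • φ)‖ ^ 2 := by
      calc (1 + q * t * c) ^ (2 / q) ≤ (‖J (w + t • φ)‖ ^ q) ^ (2 / q) :=
            Real.rpow_le_rpow ht.le (hI t) (by positivity)
        _ = ‖J (w + t • φ)‖ ^ 2 := by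
            rw [← Real.rpow_mul (norm_nonneg _), mul_div_cancel₀ _ hq0.ne']
            norm_num
    have h3 := hl (w + t • φ)
    have h4 := mul_le_mul_of_nonneg_left h2 hl0
    show 0 ≤ (‖w‖ ^ 2 + 2 * (t * ⟪w, φ⟫_ℝ) + t ^ 2 * ‖φ‖ ^ 2) - l1 * (1 + q * t * c) ^ (2 / q)
    rw [← h1]
    linarith
  have hder : HasDerivAt F ((0 + 2 * (1 * ⟪w, φ⟫_ℝ) + (2 * (0:ℝ) ^ 1 * 1) * ‖φ‖ ^ 2) -
      l1 * ((0 + q * 1 * c) * (2 / q) * (1 + q * 0 * c) ^ (2 / q - 1))) 0 := by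
    have hid : HasDerivAt (fun t : ℝ => t) 1 0 := hasDerivAt_id 0
    have h1 : HasDerivAt (fun t : ℝ => ‖w‖ ^ 2 + 2 * (t * ⟪w, φ⟫_ℝ) + t ^ 2 * ‖φ‖ ^ 2)
        (0 + 2 * (1 * ⟪w, φ⟫_ℝ) + (2 * (0:ℝ) ^ 1 * 1) * ‖φ‖ ^ 2) 0 := by
      refine ((hasDerivAt_const _ _).add ((hid.mul_const _).const_mul _)).add ?_
      exact (hid.pow 2).mul_const _
    have h2 : HasDerivAt (fun t : ℝ => 1 + q * t * c) (0 + q * 1 * c) 0 :=
      (hasDerivAt_const _ _).add ((hid.const_mul q).mul_const c)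
    exact h1.sub ((h2.rpow_const (p := 2 / q) (Or.inl (by simp))).const_mul l1)
  have := hmin.hasDerivAt_eq_zero hder
  simp only [mul_zero, zero_mul, add_zero, Real.one_rpow, mul_one, one_mul, zero_add, pow_one] at this
  have e : q * c * (2 / q) = 2 * c := by field_simp
  rw [e] at this
  linarith

theorem sub_conv (hD : Dq μ J q) {l1 : ℝ}
    (hl : ∀ v : H, l1 * ‖J v‖ ^ 2 ≤ ‖v‖ ^ 2) (u : ℕ → H) (hu1 : ∀ n, ‖J (u n)‖ = 1)
    (hul : Tendsto (fun n => ‖u n‖ ^ 2) atTop (𝓝 l1)) (𝒰 : Ultrafilter ℕ)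
    (h𝒰 : (𝒰 : Filter ℕ) ≤ atTop) :
    ∃ u0 : H, Tendsto u 𝒰 (𝓝 u0) ∧ ‖J u0‖ = 1 ∧ ‖u0‖ ^ 2 = l1 := by
  obtain ⟨K, hK⟩ : ∃ K, ∀ n, ‖u n‖ ≤ K := by
    obtain ⟨K, hK⟩ := hul.bddAbove_range
    refine ⟨K + 1, fun n => ?_⟩
    have h1 : ‖u n‖ ^ 2 ≤ K := hK ⟨n, rfl⟩
    nlinarith [norm_nonneg (u n), sq_nonneg (‖u n‖ - 1)]
  obtain ⟨u0, hu0⟩ := Pool.Agent.Helper420.QI.V1.weak_lim 𝒰 u hK
  have hJ : Tendsto (fun n => J (u n)) 𝒰 (𝓝 (J u0)) := by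
    have hc : IsCompact (closure (J '' Metric.closedBall 0 K)) :=
      IsCompactOperator.isCompact_closure_image_closedBall (f := (J : H →ₗ[ℝ] Lp ℝ p μ)) hD.comp K
    have hle : ((𝒰.map (fun n => J (u n)) : Ultrafilter (Lp ℝ p μ)) : Filter (Lp ℝ p μ)) ≤
        𝓟 (closure (J '' Metric.closedBall 0 K)) := by
      rw [Filter.le_principal_iff]
      refine Filter.mem_map.2 (Filter.univ_mem' fun n => ?_)
      exact subset_closure ⟨u n, by rw [mem_closedBall_zero_iff]; exact hK n, rfl⟩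
    obtain ⟨y, -, hy⟩ := hc.ultrafilter_le_nhds _ hle
    have hy' : Tendsto (fun n => J (u n)) 𝒰 (𝓝 y) := hy
    have : y = J u0 := by
      refine (SeparatingDual.eq_iff_forall_dual_eq (R := ℝ)).2 fun g => ?_
      have h1 : Tendsto (fun n => g (J (u n))) 𝒰 (𝓝 (g y)) := (g.continuous.tendsto y).comp hy'
      have h3 : ∀ v : H, ⟪v, (InnerProductSpace.toDual ℝ H).symm (g.comp J)⟫_ℝ = g (J v) := by
        intro v
        rw [real_inner_comm, InnerProductSpace.toDual_symm_apply]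
        rfl
      have h2 : Tendsto (fun n => g (J (u n))) 𝒰 (𝓝 (g (J u0))) := by
        have := hu0 ((InnerProductSpace.toDual ℝ H).symm (g.comp J))
        simpa only [h3] using this
      exact tendsto_nhds_unique h1 h2
    rwa [this] at hy'
  have hN0 : ‖J u0‖ = 1 := by
    have h1 := hJ.norm
    simp only [hu1] at h1
    exact tendsto_nhds_unique h1 tendsto_const_nhds
  have hnu : Tendsto (fun n => ‖u n‖ ^ 2) 𝒰 (𝓝 l1) := hul.mono_left h𝒰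
  have hge : l1 ≤ ‖u0‖ ^ 2 := by
    have := hl u0
    rwa [hN0, one_pow, mul_one] at this
  have hle : ‖u0‖ ^ 2 ≤ l1 := by
    have h1 : Tendsto (fun n => 2 * ⟪u n, u0⟫_ℝ - ‖u n‖ ^ 2) 𝒰 (𝓝 (2 * ⟪u0, u0⟫_ℝ - l1)) :=
      ((hu0 u0).const_mul 2).sub hnu
    have h2 : 2 * ⟪u0, u0⟫_ℝ - l1 ≤ ‖u0‖ ^ 2 := by
      refine le_of_tendsto h1 (Filter.Eventually.of_forall fun n => ?_)
      have := norm_sub_sq_real (u n) u0
      nlinarith [sq_nonneg ‖u n - u0‖]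
    rw [real_inner_self_eq_norm_sq] at h2
    linarith
  have heq : ‖u0‖ ^ 2 = l1 := le_antisymm hle hge
  refine ⟨u0, ?_, hN0, heq⟩
  have h1 : Tendsto (fun n => ‖u n - u0‖ ^ 2) 𝒰 (𝓝 0) := by
    have h2 : Tendsto (fun n => ‖u n‖ ^ 2 - 2 * ⟪u n, u0⟫_ℝ + ‖u0‖ ^ 2) 𝒰
        (𝓝 (l1 - 2 * ⟪u0, u0⟫_ℝ + ‖u0‖ ^ 2)) :=
      (hnu.sub ((hu0 u0).const_mul 2)).add tendsto_const_nhds
    have h3 : l1 - 2 * ⟪u0, u0⟫_ℝ + ‖u0‖ ^ 2 = 0 := by
      rw [real_inner_self_eq_norm_sq]; linarith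
    rw [h3] at h2
    refine h2.congr fun n => ?_
    rw [norm_sub_sq_real]
  rw [tendsto_iff_norm_sub_tendsto_zero]
  have h2 := h1.sqrt
  rw [Real.sqrt_zero] at h2
  refine h2.congr fun n => ?_
  rw [Real.sqrt_sq (norm_nonneg _)]


theorem scale_eq (hq : 2 < q) {l : ℝ} (hl : 0 < l) {w : H}
    (h : ∀ φ : H, ⟪w, φ⟫_ℝ = l * ∫ x, |J w x| ^ (q - 2) * J w x * J φ x ∂μ) (φ : H) :
    ⟪l ^ (1 / (q - 2)) • w, φ⟫_ℝ =
      ∫ x, |J (l ^ (1 / (q - 2)) • w) x| ^ (q - 2) * J (l ^ (1 / (q - 2)) • w) x * J φ x ∂μ := by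
  set a := l ^ (1 / (q - 2)) with ha
  have ha0 : 0 < a := Real.rpow_pos_of_pos hl _
  have hap : a ^ (q - 2) = l := by
    rw [ha, ← Real.rpow_mul hl.le, one_div, inv_mul_cancel₀ (by linarith), Real.rpow_one]
  have h1 : ∫ x, |J (a • w) x| ^ (q - 2) * J (a • w) x * J φ x ∂μ =
      ∫ x, (a ^ (q - 2) * a) * (|J w x| ^ (q - 2) * J w x * J φ x) ∂μ := by
    refine integral_congr_ae ?_
    rw [map_smul]
    filter_upwards [Lp.coeFn_smul a (J w)] with x hx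
    show |(a • J w : Lp ℝ p μ) x| ^ (q - 2) * (a • J w : Lp ℝ p μ) x * J φ x = _
    rw [hx, Pi.smul_apply, smul_eq_mul, abs_mul, abs_of_pos ha0,
      Real.mul_rpow ha0.le (abs_nonneg _)]
    ring
  rw [h1, integral_const_mul, hap, real_inner_smul_left, h φ]
  ring

/-- abstract isolation of the first critical value -/
theorem isolated (hD : Dq μ J q)
    {l1 : ℝ} (hl1 : l1 = sInf {t : ℝ | ∃ u : H, ‖J u‖ = 1 ∧ t = ‖u‖ ^ 2}) :
    ∃ ε : ℝ, 0 < ε ∧ ∀ u : H, ‖J u‖ = 1 →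
      (∀ φ : H, ⟪u, φ⟫_ℝ = ‖u‖ ^ 2 * ∫ x, |J u x| ^ (q - 2) * J u x * J φ x ∂μ) →
      ‖u‖ ^ 2 < l1 + ε → ‖u‖ ^ 2 = l1 := by
  by_contra hcon
  push Not at hcon
  have hq := hD.two_lt
  have hbdd : BddBelow {t : ℝ | ∃ u : H, ‖J u‖ = 1 ∧ t = ‖u‖ ^ 2} :=
    ⟨0, by rintro t ⟨u, -, rfl⟩; positivity⟩
  have hle : ∀ v : H, ‖J v‖ = 1 → l1 ≤ ‖v‖ ^ 2 := by
    intro v hv
    rw [hl1]
    exact csInf_le hbdd ⟨v, hv, rfl⟩
  have hl : ∀ v : H, l1 * ‖J v‖ ^ 2 ≤ ‖v‖ ^ 2 := by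
    intro v
    rcases eq_or_ne (‖J v‖) 0 with h | h
    · rw [h]; simp
    · have hpos : 0 < ‖J v‖ := lt_of_le_of_ne (norm_nonneg _) (Ne.symm h)
      have h1 := hle ((‖J v‖)⁻¹ • v) (by
        rw [map_smul, norm_smul, norm_inv, norm_norm, inv_mul_cancel₀ h])
      rw [norm_smul, mul_pow, Real.norm_eq_abs, sq_abs, inv_pow] at h1
      have h2 : 0 < ‖J v‖ ^ 2 := by positivity
      calc l1 * ‖J v‖ ^ 2 ≤ ((‖J v‖ ^ 2)⁻¹ * ‖v‖ ^ 2) * ‖J v‖ ^ 2 :=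
            mul_le_mul_of_nonneg_right h1 h2.le
        _ = ‖v‖ ^ 2 := by field_simp
  have hpos_of : ∀ v : H, ‖J v‖ = 1 → 0 < ‖v‖ ^ 2 := by
    intro v hv
    have : v ≠ 0 := by
      rintro rfl
      rw [map_zero, norm_zero] at hv
      exact zero_ne_one hv
    positivity
  choose u hu1 hu2 hu3 hu4 using fun n : ℕ => hcon (1 / ((n : ℝ) + 1)) (by positivity)
  have hu1' : ∀ n, ‖J (u n)‖ = 1 := hu1
  have hul : Tendsto (fun n => ‖u n‖ ^ 2) atTop (𝓝 l1) := by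
    have h1 : Tendsto (fun n : ℕ => l1 + 1 / ((n : ℝ) + 1)) atTop (𝓝 (l1 + 0)) :=
      tendsto_const_nhds.add tendsto_one_div_add_atTop_nhds_zero_nat
    rw [add_zero] at h1
    exact tendsto_of_tendsto_of_tendsto_of_le_of_le tendsto_const_nhds h1
      (fun n => hle _ (hu1' n)) (fun n => (hu3 n).le)
  let 𝒰 : Ultrafilter ℕ := Ultrafilter.of atTop
  have h𝒰 : (𝒰 : Filter ℕ) ≤ atTop := Ultrafilter.of_le _
  obtain ⟨u0, hlim, hN0, hn0⟩ := sub_conv hD hl u hu1' hul 𝒰 h𝒰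
  have hl1pos : 0 < l1 := hn0 ▸ hpos_of u0 hN0
  obtain ⟨v0, hv0, hv0n⟩ := habs hD u0
  have hNv : ‖J v0‖ = 1 := by
    rw [← hN0]
    apply le_antisymm
    · apply Lp.norm_le_norm_of_ae_le
      filter_upwards [hv0] with x hx
      rw [hx, Real.norm_eq_abs, Real.norm_eq_abs, abs_abs]
    · apply Lp.norm_le_norm_of_ae_le
      filter_upwards [hv0] with x hx
      rw [hx, Real.norm_eq_abs, Real.norm_eq_abs, abs_abs]
  have hnv : ‖v0‖ ^ 2 = l1 := by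
    refine le_antisymm ?_ (hle v0 hNv)
    rw [← hn0]
    exact pow_le_pow_left₀ (norm_nonneg _) hv0n 2
  have ELu := EL hD hl hN0 hn0
  have ELv := EL hD hl hNv hnv
  set p1 := 1 / (q - 2) with hp1
  have hp1pos : 0 < p1 := by rw [hp1]; exact one_div_pos.2 (by linarith)
  let U : ℕ → H := fun n => ((‖u n‖ ^ 2) ^ p1) • u n
  have hU : Tendsto U (𝒰 : Filter ℕ) (𝓝 (l1 ^ p1 • u0)) :=
    ((hul.mono_left h𝒰).rpow_const (Or.inr hp1pos.le)).smul hlim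
  have hex : ∀ k : ℕ, ∃ n, dist (U n) (l1 ^ p1 • u0) < 1 / ((k : ℝ) + 1) := by
    intro k
    exact ((Metric.tendsto_nhds.1 hU) (1 / ((k : ℝ) + 1)) (by positivity)).exists
  choose m hm using hex
  have hUm : Tendsto (fun k => U (m k)) atTop (𝓝 (l1 ^ p1 • u0)) := by
    rw [tendsto_iff_dist_tendsto_zero]
    exact squeeze_zero (fun k => dist_nonneg) (fun k => (hm k).le)
      tendsto_one_div_add_atTop_nhds_zero_nat
  have hap : 0 < l1 ^ p1 := Real.rpow_pos_of_pos hl1pos _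
  have hv0' : J (l1 ^ p1 • v0) =ᵐ[μ] fun x => |J (l1 ^ p1 • u0) x| := by
    rw [map_smul, map_smul]
    filter_upwards [Lp.coeFn_smul (l1 ^ p1) (J v0), Lp.coeFn_smul (l1 ^ p1) (J u0), hv0]
      with x h1 h2 h3
    rw [h1, h2, Pi.smul_apply, Pi.smul_apply, h3, smul_eq_mul, smul_eq_mul, abs_mul,
      abs_of_pos hap]
  have hsup : ∀ φ : H, 0 ≤ᵐ[μ] J φ →
      ∫ x, (J (l1 ^ p1 • v0) x) ^ (q - 1) * J φ x ∂μ ≤ ⟪l1 ^ p1 • v0, φ⟫_ℝ := by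
    intro φ _
    rw [scale_eq hq hl1pos ELv φ]
    refine le_of_eq (integral_congr_ae ?_)
    filter_upwards [hv0'] with x hx
    have h0 : 0 ≤ J (l1 ^ p1 • v0) x := by rw [hx]; exact abs_nonneg _
    rw [abs_of_nonneg h0]
    congr 1
    rcases eq_or_ne (J (l1 ^ p1 • v0) x) 0 with h | h
    · rw [h, Real.zero_rpow (by linarith), Real.zero_rpow (by linarith)]; simp
    · rw [← Real.rpow_add_one h]; congr 1; ring
  have hev := energy_const hD (l1 ^ p1 • u0) (l1 ^ p1 • v0) (scale_eq hq hl1pos ELu) hv0' hsup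
    (fun k => U (m k)) (fun k => scale_eq hq (hpos_of _ (hu1' (m k))) (hu2 (m k))) hUm
  obtain ⟨k, hk⟩ := hev.exists
  have hgt : l1 < ‖u (m k)‖ ^ 2 := lt_of_le_of_ne (hle _ (hu1' _)) (Ne.symm (hu4 _))
  have e1 : ‖U (m k)‖ = (‖u (m k)‖ ^ 2) ^ p1 * ‖u (m k)‖ := by
    show ‖((‖u (m k)‖ ^ 2) ^ p1) • u (m k)‖ = _
    rw [norm_smul, Real.norm_of_nonneg (by positivity)]
  have e2 : ‖l1 ^ p1 • u0‖ = l1 ^ p1 * ‖u0‖ := by
    rw [norm_smul, Real.norm_of_nonneg (by positivity)]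
  have hk' : ‖U (m k)‖ = ‖l1 ^ p1 • u0‖ := hk
  rw [e1, e2] at hk'
  have h1 : l1 ^ p1 < (‖u (m k)‖ ^ 2) ^ p1 := Real.rpow_lt_rpow hl1pos.le hgt hp1pos
  have h2 : ‖u0‖ < ‖u (m k)‖ := by
    rw [← hn0] at hgt
    exact lt_of_pow_lt_pow_left₀ 2 (norm_nonneg _) hgt
  have h3 : l1 ^ p1 * ‖u0‖ < (‖u (m k)‖ ^ 2) ^ p1 * ‖u (m k)‖ :=
    mul_lt_mul'' h1 h2 hap.le (norm_nonneg _)
  linarith


/-- the equation extends from a dense set of test elements -/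
theorem extend_eq (hD : Dq μ J q) (w : H) (l : ℝ) (S : Set H) (hS : Dense S)
    (heq : ∀ h ∈ S, ⟪w, h⟫_ℝ = l * ∫ x, |J w x| ^ (q - 2) * J w x * J h x ∂μ) (φ : H) :
    ⟪w, φ⟫_ℝ = l * ∫ x, |J w x| ^ (q - 2) * J w x * J φ x ∂μ := by
  obtain ⟨g, hg⟩ := riesz hD w (F := fun x => |J w x| ^ (q - 2) * J w x) (c := 1)
    ((((aem (J := J) w).norm.aemeasurable.pow_const (q - 2)).aestronglyMeasurable).mul (aem w))
    zero_le_one (Eventually.of_forall fun x => by rw [absU hD.two_lt, one_mul])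
  rw [← hg]
  have h1 : IsClosed {h : H | ⟪w, h⟫_ℝ = l * ⟪g, h⟫_ℝ} :=
    isClosed_eq (by fun_prop) (by fun_prop)
  have h2 : closure S ⊆ {h : H | ⟪w, h⟫_ℝ = l * ⟪g, h⟫_ℝ} := by
    refine closure_minimal (fun h hh => ?_) h1
    show ⟪w, h⟫_ℝ = l * ⟪g, h⟫_ℝ
    rw [hg, heq h hh]
  exact h2 (hS φ)

end Pool.Agent.H571Z.Iso
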