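import Pool.Agent.H571Z.Iso.A5
import Pool.Agent.Helper420.QI.Conc4
set_option autoImplicit false
set_option linter.unusedSectionVars false
set_option linter.unusedVariables false
open MeasureTheory Metric Set Filter Topology
open scoped ENNReal NNReal InnerProductSpace

namespace Pool.Agent.H571Z.Iso

open Pool.Agent.Helper420.QI Pool.Agent.Helper420.QI.QEig Pool.Agent.Helper420.QI.Sob
open Pool.Agent.Helper420.QI.Conc (L2v gL gL_coe cut_ineq isTest_cut convexOn_F)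

variable {N : ℕ} {q : ℝ≥0} [Fact (1 ≤ (q : ℝ≥0∞))] {Ω : Set (EuclideanSpace ℝ (Fin N))}

/-- `q`-integrable functions -/
abbrev Lqf (N : ℕ) (q : ℝ≥0) : Type :=
  Lp ℝ (q : ℝ≥0∞) (volume : Measure (EuclideanSpace ℝ (Fin N)))

/-- test functions of energy at most one -/
def SB (q : ℝ≥0) [Fact (1 ≤ (q : ℝ≥0∞))] (Ω : Set (EuclideanSpace ℝ (Fin N))) : Set (Lqf N q) :=
  {f | ∃ P ∈ TS q Ω, f = P.1 ∧ ‖P.2‖ ≤ 1}

/-- closure of the graph -/
noncomputable def DQ (q : ℝ≥0) [Fact (1 ≤ (q : ℝ≥0∞))] (Ω : Set (EuclideanSpace ℝ (Fin N))) :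
    Submodule ℝ (Pairs N q) := (TS q Ω).topologicalClosure

theorem DQ_closed : IsClosed (DQ q Ω : Set (Pairs N q)) := Submodule.isClosed_topologicalClosure _

theorem DQ_seq {P : Pairs N q} (hp : P ∈ DQ q Ω) :
    ∃ (φ : ℕ → EuclideanSpace ℝ (Fin N) → ℝ) (hφ : ∀ n, IsTest Ω (φ n)),
      Tendsto (fun n => (pairOf q (hφ n)).1) atTop (𝓝 P.1) ∧
      Tendsto (fun n => gL (hφ n)) atTop (𝓝 P.2) := by
  have hcl : P ∈ closure (TS q Ω : Set (Pairs N q)) := hp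
  rw [mem_closure_iff_seq_limit] at hcl
  obtain ⟨R, hR, hRl⟩ := hcl
  choose φ hφ he using fun n => TS_eq_pairOf (hR n)
  refine ⟨φ, hφ, ?_, ?_⟩
  · have := (continuous_fst.tendsto P).comp hRl
    refine this.congr fun n => ?_
    simp only [Function.comp_apply, he n]
  · have := (continuous_snd.tendsto P).comp hRl
    refine this.congr fun n => ?_
    simp only [Function.comp_apply, he n]
    rfl

theorem poinc (hK : IsCompact (closure (SB q Ω))) :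
    ∃ C : ℝ, 0 ≤ C ∧ ∀ P ∈ DQ q Ω, ‖P.1‖ ≤ C * ‖P.2‖ := by
  obtain ⟨C0, hC0⟩ := hK.isBounded.exists_norm_le
  set C := max C0 0 with hC
  have hCn : 0 ≤ C := le_max_right _ _
  refine ⟨C, hCn, fun P hp => ?_⟩
  have hcl : IsClosed {P : Pairs N q | ‖P.1‖ ≤ C * ‖P.2‖} := isClosed_le (by fun_prop) (by fun_prop)
  have hsub : (TS q Ω : Set (Pairs N q)) ⊆ {P : Pairs N q | ‖P.1‖ ≤ C * ‖P.2‖} := by
    intro P hP
    show ‖P.1‖ ≤ C * ‖P.2‖
    have key : ∀ δ : ℝ, 0 < δ → ‖P.1‖ ≤ C * (‖P.2‖ + δ) := by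
      intro δ hδ
      have hs : 0 < ‖P.2‖ + δ := by positivity
      have h1 : ((‖P.2‖ + δ)⁻¹ • P).1 ∈ SB q Ω := by
        refine ⟨(‖P.2‖ + δ)⁻¹ • P, (TS q Ω).smul_mem _ hP, rfl, ?_⟩
        rw [Prod.smul_snd, norm_smul, norm_inv, Real.norm_of_nonneg hs.le, inv_mul_le_iff₀ hs]
        linarith
      have h2 := (hC0 _ (subset_closure h1)).trans (le_max_left C0 0)
      rw [Prod.smul_fst, norm_smul, norm_inv, Real.norm_of_nonneg hs.le, inv_mul_le_iff₀ hs] at h2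
      rw [mul_comm]; exact h2
    apply le_of_forall_pos_le_add
    intro ε hε
    have h3 := key (ε / (C + 1)) (by positivity)
    have h4 : C * (ε / (C + 1)) ≤ ε := by
      rw [← mul_div_assoc, div_le_iff₀ (by positivity)]
      nlinarith
    linarith
  exact closure_minimal hsub hcl hp

/-- the Hilbert space: gradients -/
noncomputable def HQ (q : ℝ≥0) [Fact (1 ≤ (q : ℝ≥0∞))] (Ω : Set (EuclideanSpace ℝ (Fin N))) :
    Submodule ℝ (L2v N) :=
  (DQ q Ω).map (LinearMap.snd ℝ (Lqf N q) (L2v N))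

theorem mem_HQ {G : L2v N} : G ∈ HQ q Ω ↔ ∃ U : Lqf N q, (U, G) ∈ DQ q Ω := by
  unfold HQ
  rw [Submodule.mem_map]
  constructor
  · rintro ⟨P, hp, rfl⟩
    exact ⟨P.1, hp⟩
  · rintro ⟨U, hU⟩
    exact ⟨(U, G), hU, rfl⟩

theorem HQ_closed (hK : IsCompact (closure (SB q Ω))) : IsClosed (HQ q Ω : Set (L2v N)) := by
  obtain ⟨C, hC0, hC⟩ := poinc hK
  apply IsSeqClosed.isClosed
  intro G g hG hg
  choose U hU using fun n => mem_HQ.mp (hG n)
  have hcau : CauchySeq U := by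
    have h1 := hg.cauchySeq
    rw [Metric.cauchySeq_iff'] at h1 ⊢
    intro ε hε
    obtain ⟨n0, hn0⟩ := h1 (ε / (C + 1)) (by positivity)
    refine ⟨n0, fun n hn => ?_⟩
    have h2 := hC _ ((DQ q Ω).sub_mem (hU n) (hU n0))
    simp only [Prod.fst_sub, Prod.snd_sub] at h2
    have h3 := hn0 n hn
    rw [dist_eq_norm] at h3 ⊢
    calc ‖U n - U n0‖ ≤ C * ‖G n - G n0‖ := h2
      _ ≤ (C + 1) * ‖G n - G n0‖ := by gcongr; linarith
      _ < (C + 1) * (ε / (C + 1)) := by gcongr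
      _ = ε := by field_simp
  obtain ⟨u, hu⟩ := cauchySeq_tendsto_of_complete hcau
  exact mem_HQ.mpr ⟨u, DQ_closed.mem_of_tendsto (hu.prodMk_nhds hg) (Eventually.of_forall hU)⟩

theorem DQ_unique (hK : IsCompact (closure (SB q Ω)))
    {U V : Lqf N q} {G : L2v N} (h1 : (U, G) ∈ DQ q Ω) (h2 : (V, G) ∈ DQ q Ω) : U = V := by
  obtain ⟨C, hC0, hC⟩ := poinc hK
  have h3 := hC _ ((DQ q Ω).sub_mem h1 h2)
  simp only [Prod.fst_sub, Prod.snd_sub, sub_self, norm_zero, mul_zero] at h3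
  exact sub_eq_zero.mp (norm_le_zero_iff.mp h3)

/-- the primitive of a gradient -/
noncomputable def primq (G : HQ q Ω) : Lqf N q := Classical.choose (mem_HQ.mp G.2)

theorem primq_mem (G : HQ q Ω) : (primq G, (G : L2v N)) ∈ DQ q Ω :=
  Classical.choose_spec (mem_HQ.mp G.2)

theorem primq_add (hK : IsCompact (closure (SB q Ω)))
    (a b : HQ q Ω) : primq (a + b) = primq a + primq b := by
  apply DQ_unique hK (primq_mem (a + b))
  have := (DQ q Ω).add_mem (primq_mem a) (primq_mem b)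
  rwa [Prod.mk_add_mk, ← Submodule.coe_add] at this

theorem primq_smul (hK : IsCompact (closure (SB q Ω)))
    (c : ℝ) (a : HQ q Ω) : primq (c • a) = c • primq a := by
  apply DQ_unique hK (primq_mem (c • a))
  have := (DQ q Ω).smul_mem c (primq_mem a)
  rwa [Prod.smul_mk, ← Submodule.coe_smul] at this

/-- the embedding -/
noncomputable def primqL (hK : IsCompact (closure (SB q Ω))) : HQ q Ω →ₗ[ℝ] Lqf N q where
  toFun := primq
  map_add' := primq_add hK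
  map_smul' := primq_smul hK

theorem exists_J (hK : IsCompact (closure (SB q Ω))) :
    ∃ J0 : HQ q Ω →L[ℝ] Lqf N q, ∀ G : HQ q Ω, J0 G = primq G := by
  obtain ⟨C, hC0, hC⟩ := poinc hK
  have hb : ∀ G : HQ q Ω, ‖primqL hK G‖ ≤ C * ‖G‖ := by
    intro G
    have := hC _ (primq_mem G)
    exact this
  exact ⟨LinearMap.mkContinuous (primqL hK) C hb, fun G => rfl⟩

theorem pair_mem {φ : EuclideanSpace ℝ (Fin N) → ℝ} (hφ : IsTest Ω φ) :
    ((pairOf q hφ).1, gL hφ) ∈ DQ q Ω := subset_closure (pairOf_mem_TS (q := q) hφ)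

/-- test gradients as elements of the Hilbert space -/
noncomputable def gQ (q : ℝ≥0) [Fact (1 ≤ (q : ℝ≥0∞))] {φ : EuclideanSpace ℝ (Fin N) → ℝ}
    (hφ : IsTest Ω φ) : HQ q Ω :=
  ⟨gL hφ, mem_HQ.mpr ⟨(pairOf q hφ).1, pair_mem hφ⟩⟩

theorem primq_gQ (hK : IsCompact (closure (SB q Ω))) {φ : EuclideanSpace ℝ (Fin N) → ℝ}
    (hφ : IsTest Ω φ) : primq (gQ q hφ) = (pairOf q hφ).1 :=
  DQ_unique hK (primq_mem (gQ q hφ)) (pair_mem hφ)

theorem exists_seq (G : HQ q Ω) :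
    ∃ (φ : ℕ → EuclideanSpace ℝ (Fin N) → ℝ) (hφ : ∀ n, IsTest Ω (φ n)),
      Tendsto (fun n => gQ q (hφ n)) atTop (𝓝 G) ∧
      Tendsto (fun n => (pairOf q (hφ n)).1) atTop (𝓝 (primq G)) := by
  obtain ⟨φ, hφ, h1, h2⟩ := DQ_seq (primq_mem G)
  refine ⟨φ, hφ, ?_, h1⟩
  rw [tendsto_subtype_rng]
  exact h2

theorem hsm_ineq {φ : EuclideanSpace ℝ (Fin N) → ℝ} (hφ : IsTest Ω φ) {ε : ℝ} (hε : 0 < ε) :
    ‖gL (isTest_hsm hφ ε)‖ ^ 2 ≤ ⟪gL hφ, gL (isTest_hsm hφ ε)⟫_ℝ := by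
  have h1 := cut_ineq hφ hε (le_refl (0 : ℝ))
  have h2 : gL (isTest_cut hφ hε (le_refl (0 : ℝ))) = gL (isTest_hsm hφ ε) := by
    apply Lp.ext
    refine (gL_coe _).trans (Filter.EventuallyEq.trans ?_ (gL_coe _).symm)
    simp only [sub_zero]
    rfl
  rwa [h2] at h1

theorem hq_cut (hK : IsCompact (closure (SB q Ω)))
    (J0 : HQ q Ω →L[ℝ] Lqf N q) (hJ0 : ∀ G, J0 G = primq G) (hc : CompleteSpace (HQ q Ω))
    (u : HQ q Ω) :
    ∃ w : HQ q Ω, (J0 w =ᵐ[volume] fun x => max (J0 u x) 0) ∧ ‖w‖ ^ 2 ≤ ⟪u, w⟫_ℝ := by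
  obtain ⟨φ, hφ, h1, h2⟩ := exists_seq u
  have hex : ∀ n : ℕ, ∃ k : ℕ, dist (pairOf q (isTest_hsm (hφ n) (1 / ((k : ℝ) + 1)))).1
      (Lp.posPart (pairOf q (hφ n)).1) < 1 / ((n : ℝ) + 1) := by
    intro n
    exact ((Metric.tendsto_nhds.1 (tendsto_hsm (q := q) (hφ n))) _ (by positivity)).exists
  choose k hk using hex
  have he : ∀ n : ℕ, 0 < 1 / ((k n : ℝ) + 1) := fun n => by positivity
  set a : ℕ → HQ q Ω := fun n => gQ q (hφ n) with ha
  set b : ℕ → HQ q Ω := fun n => gQ q (isTest_hsm (hφ n) (1 / ((k n : ℝ) + 1))) with hb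
  have hin : ∀ n, ‖b n‖ ^ 2 ≤ ⟪a n, b n⟫_ℝ := fun n => hsm_ineq (hφ n) (he n)
  have hle : ∀ n, ‖b n‖ ≤ ‖a n‖ := by
    intro n
    have e1 := hin n
    have e2 := real_inner_le_norm (a n) (b n)
    by_contra hcon
    push Not at hcon
    have e3 : 0 ≤ ‖a n‖ := norm_nonneg _
    nlinarith
  obtain ⟨R, hR⟩ : ∃ R, ∀ n, ‖a n‖ ≤ R := by
    obtain ⟨R, hR⟩ := (h1.norm).bddAbove_range
    exact ⟨R, fun n => hR ⟨n, rfl⟩⟩
  obtain ⟨w, hw⟩ := exists_weak_limit b (R := R) fun n => (hle n).trans (hR n)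
  refine ⟨w, ?_, ?_⟩
  · have hconv : Tendsto (fun n => J0 (b n)) atTop (𝓝 (Lp.posPart (J0 u))) := by
      have t1 : Tendsto (fun n => Lp.posPart (pairOf q (hφ n)).1) atTop (𝓝 (Lp.posPart (J0 u))) := by
        rw [hJ0]
        exact (Lp.continuous_posPart.tendsto _).comp h2
      refine t1.congr_dist ?_
      refine squeeze_zero (fun n => dist_nonneg) (fun n => ?_)
        tendsto_one_div_add_atTop_nhds_zero_nat
      rw [hJ0, hb]
      simp only
      rw [primq_gQ hK, dist_comm]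
      exact (hk n).le
    rw [weak_limit_map hw J0 hconv]
    exact Lp.coeFn_posPart _
  · have h5 : ‖w‖ ^ 2 - ⟪u, w⟫_ℝ ≤ 0 := by
      apply weak_limit_mem hw (F := fun y : HQ q Ω => ‖y‖ ^ 2 - ⟪u, y⟫_ℝ) (convexOn_F u)
      · fun_prop
      · intro ε hε
        have e1 : Tendsto (fun n => ‖a n - u‖ * R) atTop (𝓝 (0 * R)) :=
          (tendsto_iff_norm_sub_tendsto_zero.mp h1).mul_const R
        rw [zero_mul] at e1
        filter_upwards [e1.eventually (gt_mem_nhds hε)] with n hn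
        have e2 := hin n
        have e3 : ⟪a n, b n⟫_ℝ - ⟪u, b n⟫_ℝ = ⟪a n - u, b n⟫_ℝ := by rw [inner_sub_left]
        have e4 := real_inner_le_norm (a n - u) (b n)
        have e5 : ‖a n - u‖ * ‖b n‖ ≤ ‖a n - u‖ * R := by
          gcongr
          exact (hle n).trans (hR n)
        linarith
    linarith

theorem hq_comp (hK : IsCompact (closure (SB q Ω)))
    (J0 : HQ q Ω →L[ℝ] Lqf N q) (hJ0 : ∀ G, J0 G = primq G) : IsCompactOperator J0 := by
  rw [isCompactOperator_iff_exists_mem_nhds_image_subset_compact]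
  refine ⟨ball 0 1, ball_mem_nhds _ one_pos, closure (SB q Ω), hK, ?_⟩
  rintro _ ⟨G, hG, rfl⟩
  rw [mem_ball_zero_iff] at hG
  obtain ⟨φ, hφ, h1, h2⟩ := exists_seq G
  rw [hJ0]
  refine mem_closure_of_tendsto h2 ?_
  filter_upwards [(h1.norm).eventually (gt_mem_nhds hG)] with n hn
  exact ⟨pairOf q (hφ n), pairOf_mem_TS (hφ n), rfl, hn.le⟩

theorem exists_dq (hq : 2 < (q : ℝ)) (hK : IsCompact (closure (SB q Ω))) :
    ∃ (H : Type) (_ : NormedAddCommGroup H) (_ : InnerProductSpace ℝ H) (_ : CompleteSpace H)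
      (J : H →L[ℝ] Lqf N q) (D : H →ₗᵢ[ℝ] L2v N), Dq volume J q ∧
      (∀ (u : EuclideanSpace ℝ (Fin N) → ℝ) (G : EuclideanSpace ℝ (Fin N) → EuclideanSpace ℝ (Fin N)),
        (MemLp u q volume ∧ MemLp G 2 volume ∧
          ∃ φ : ℕ → EuclideanSpace ℝ (Fin N) → ℝ, (∀ n, IsTest Ω (φ n)) ∧
            Tendsto (fun n => eLpNorm (fun x => φ n x - u x) q volume) atTop (𝓝 0) ∧
            Tendsto (fun n => eLpNorm (fun x => gradient (φ n) x - G x) 2 volume) atTop (𝓝 0)) ↔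
        (∃ w : H, u =ᵐ[volume] J w ∧ G =ᵐ[volume] D w)) ∧
      Dense {h : H | ∃ ψ : EuclideanSpace ℝ (Fin N) → ℝ, IsTest Ω ψ ∧
        J h =ᵐ[volume] ψ ∧ D h =ᵐ[volume] gradient ψ} := by
  have hc : CompleteSpace (HQ q Ω) := (HQ_closed hK).completeSpace_coe
  obtain ⟨J0, hJ0⟩ := exists_J hK
  refine ⟨HQ q Ω, inferInstance, inferInstance, hc, J0, (HQ q Ω).subtypeₗᵢ, ?_, ?_, ?_⟩
  · exact ⟨hq, ENNReal.ofReal_coe_nnreal.symm, hq_cut hK J0 hJ0 hc, hq_comp hK J0 hJ0⟩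
  · intro u G
    constructor
    · rintro ⟨hu, hG, φ, hφ, h1, h2⟩
      have e1 : Tendsto (fun n => (pairOf q (hφ n)).1) atTop (𝓝 (hu.toLp u)) :=
        (Lp.tendsto_Lp_iff_tendsto_eLpNorm'' _ (fun n => memLp_test (hφ n) q) _ hu).mpr h1
      have e2 : Tendsto (fun n => gL (hφ n)) atTop (𝓝 (hG.toLp G)) :=
        (Lp.tendsto_Lp_iff_tendsto_eLpNorm'' _ (fun n => memLp_grad (hφ n) 2) _ hG).mpr h2
      have e3 : (hu.toLp u, hG.toLp G) ∈ DQ q Ω :=
        DQ_closed.mem_of_tendsto (e1.prodMk_nhds e2)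
          (Eventually.of_forall fun n => pair_mem (hφ n))
      set w : HQ q Ω := ⟨hG.toLp G, mem_HQ.mpr ⟨_, e3⟩⟩ with hw
      have e4 : primq w = hu.toLp u := DQ_unique hK (primq_mem w) e3
      refine ⟨w, ?_, hG.coeFn_toLp.symm⟩
      rw [hJ0, e4]
      exact hu.coeFn_toLp.symm
    · rintro ⟨w, e1, hGw⟩
      rw [hJ0] at e1
      have hu : MemLp u q volume := (memLp_congr_ae e1).mpr (Lp.memLp (primq w))
      have hG : MemLp G 2 volume := (memLp_congr_ae hGw).mpr (Lp.memLp ((HQ q Ω).subtypeₗᵢ w))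
      obtain ⟨φ, hφ, h1, h2⟩ := exists_seq w
      refine ⟨hu, hG, φ, hφ, ?_, ?_⟩
      · have e2 : primq w = hu.toLp u := Lp.ext (e1.symm.trans hu.coeFn_toLp.symm)
        rw [e2] at h2
        exact (Lp.tendsto_Lp_iff_tendsto_eLpNorm'' _ (fun n => memLp_test (hφ n) q) _ hu).mp h2
      · have e2 : (w : L2v N) = hG.toLp G := Lp.ext (hGw.symm.trans hG.coeFn_toLp.symm)
        have e3 : Tendsto (fun n => gL (hφ n)) atTop (𝓝 (hG.toLp G)) := by
          rw [← e2]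
          exact (continuous_subtype_val.tendsto w).comp h1
        exact (Lp.tendsto_Lp_iff_tendsto_eLpNorm'' _ (fun n => memLp_grad (hφ n) 2) _ hG).mp e3
  · intro w
    obtain ⟨φ, hφ, h1, h2⟩ := exists_seq w
    refine mem_closure_of_tendsto h1 (Eventually.of_forall fun n => ⟨φ n, hφ n, ?_, gL_coe (hφ n)⟩)
    rw [hJ0, primq_gQ hK]
    exact MemLp.coeFn_toLp (memLp_test (hφ n) q)

theorem compact_of_seq
    (h : ∀ φ : ℕ → EuclideanSpace ℝ (Fin N) → ℝ, (∀ n, IsTest Ω (φ n)) →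
      (∀ n, ∫ x, ‖gradient (φ n) x‖ ^ 2 ≤ 1) →
      ∃ (u : EuclideanSpace ℝ (Fin N) → ℝ) (k : ℕ → ℕ), MemLp u q volume ∧ StrictMono k ∧
        Tendsto (fun n => eLpNorm (fun x => φ (k n) x - u x) q volume) atTop (𝓝 0)) :
    IsCompact (closure (SB q Ω)) := by
  apply IsSeqCompact.isCompact
  intro f hf
  have hex : ∀ n : ℕ, ∃ g ∈ SB q Ω, dist (f n) g < 1 / ((n : ℝ) + 1) := fun n =>
    Metric.mem_closure_iff.1 (hf n) _ (by positivity)
  choose g hg hd using hex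
  choose P hP hg1 hg2 using hg
  choose φ hφ he using fun n => TS_eq_pairOf (hP n)
  obtain ⟨u, k, hu, hk, hl⟩ := h φ hφ (fun n => by
    have h1 := norm_snd_sq (q := q) (hφ n)
    simp only [gradient_norm]
    rw [← h1, ← he n]
    have := hg2 n
    nlinarith [norm_nonneg (P n).2])
  have e1 : Tendsto (fun n => (pairOf q (hφ (k n))).1) atTop (𝓝 (hu.toLp u)) :=
    (Lp.tendsto_Lp_iff_tendsto_eLpNorm'' _ (fun n => memLp_test (hφ (k n)) q) _ hu).mpr hl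
  have e2 : Tendsto (f ∘ k) atTop (𝓝 (hu.toLp u)) := by
    refine e1.congr_dist ?_
    refine squeeze_zero (fun n => dist_nonneg) (fun n => ?_)
      (tendsto_one_div_add_atTop_nhds_zero_nat.comp hk.tendsto_atTop)
    rw [← he (k n), ← hg1 (k n), dist_comm]
    exact (hd (k n)).le
  exact ⟨hu.toLp u, isClosed_closure.mem_of_tendsto e2 (Eventually.of_forall fun n => hf (k n)),
    k, hk, e2⟩

end Pool.Agent.H571Z.Iso
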